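import Pool.Agent.U492.VB.Core
import Pool.Agent.N126.RC.CanMain

/-!
Curves on blow-ups at finite sets of points of finite coverings ramified over generic hypersurfaces.
-/

set_option autoImplicit false

open MvPolynomial FF Pool.Agent.W603.LV Pool.Agent.W603.PV
open Pool.Agent.TH145.MG (DimLE)

namespace Pool.Agent.U492.VB

open Pool.Agent.N126.RC

section

variable {K L : Type} [Field K] [IsAlgClosed K] [Field L] [Algebra K L] {n : ℕ} {W ι : Type}
  {e : W → ℕ} {G : ι → MvPolynomial (Fin (n + 1) ⊕ W) K}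

omit [IsAlgClosed K] in
theorem homX (j : Fin (n + 1)) : (X (Sum.inl j) : MvPolynomial (Fin (n + 1) ⊕ W) K).IsWeightedHomogeneous
    (wts e) 1 := isWeightedHomogeneous_X K (wts e) (Sum.inl j)

omit [IsAlgClosed K] in
theorem homCX (a : K) (j : Fin (n + 1)) :
    (C a * X (Sum.inl j) : MvPolynomial (Fin (n + 1) ⊕ W) K).IsWeightedHomogeneous (wts e) 1 := by
  have h := (isWeightedHomogeneous_C (wts e : Fin (n + 1) ⊕ W → ℕ) a).mul (homX (e := e) j)
  rwa [zero_add] at h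

/-- A form of degree `δ` which vanishes at the points, but not on the curve. -/
theorem exists_form [Finite W] (hfo : FiniteOver G) (z : Fin (n + 1) ⊕ W → L)
    (hz : ∀ i, aeval z (G i) = 0) {c : Fin (n + 1)} (hc : z (Sum.inl c) = 1)
    (hnc : ∃ v, z v ∉ Set.range (algebraMap K L)) {S : Finset (Fin (n + 1) ⊕ W → K)} {δ : ℕ}
    (hb : FiniteBase e G S δ) :
    ∃ ψ : MvPolynomial (Fin (n + 1) ⊕ W) K, ψ.IsWeightedHomogeneous (wts e) δ ∧
      (∀ p ∈ S, eval p ψ = 0) ∧ aeval z ψ ≠ 0 := by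
  classical
  by_contra hcon
  push Not at hcon
  obtain ⟨T, hT⟩ := hb
  obtain ⟨v, hv⟩ := hnc
  refine hv (const_of_x hfo z hz (fun j => ?_) v)
  obtain ⟨g, hg⟩ : ∃ g : MvPolynomial (Fin (n + 1) ⊕ W) K, g = X (Sum.inl c) *
    ∏ τ ∈ T.filter (fun τ => τ (Sum.inl c) ≠ 0), (C (τ (Sum.inl c)) * X (Sum.inl j) -
      C (τ (Sum.inl j)) * X (Sum.inl c)) := ⟨_, rfl⟩
  have h1 : aeval z g = 0 := by
    refine ns_point (ι := ι ⊕ {ψ : MvPolynomial (Fin (n + 1) ⊕ W) K //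
      ψ.IsWeightedHomogeneous (wts e) δ ∧ ∀ p ∈ S, eval p ψ = 0})
      (Sum.elim G fun ψ => ψ.1) g (fun y hy => ?_) z ?_
    · rw [hg, map_mul, eval_X, map_prod]
      by_cases hy0 : y (Sum.inl c) = 0
      · rw [hy0, zero_mul]
      obtain ⟨τ, hτ, t, ht⟩ := hT y (fun h => hy0 (by rw [h]; rfl)) (fun i => hy (Sum.inl i))
        (fun ψ hψ hψS => hy (Sum.inr ⟨ψ, hψ, hψS⟩))
      have h2 : ∀ j, y (Sum.inl j) = t * τ (Sum.inl j) := by
        intro j
        have := ht (Sum.inl j)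
        simpa only [wts, Sum.elim_inl, pow_one] using this
      have h3 : τ (Sum.inl c) ≠ 0 := by
        intro h
        apply hy0
        rw [h2, h, mul_zero]
      rw [Finset.prod_eq_zero (i := τ) (Finset.mem_filter.2 ⟨hτ, h3⟩), mul_zero]
      rw [map_sub, map_mul, map_mul, eval_C, eval_X, eval_C, eval_X, h2, h2 c]
      ring
    · rintro (i | ψ)
      · exact hz i
      · exact hcon ψ.1 ψ.2.1 ψ.2.2
  rw [hg, map_mul, aeval_X, hc, one_mul, map_prod, Finset.prod_eq_zero_iff] at h1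
  obtain ⟨τ, hτ, h2⟩ := h1
  rw [Finset.mem_filter] at hτ
  rw [map_sub, map_mul, map_mul, aeval_C, aeval_X, aeval_C, aeval_X, hc, mul_one, sub_eq_zero] at h2
  have h3 : algebraMap K L (τ (Sum.inl c)) ≠ 0 := by
    rw [Ne, map_eq_zero]; exact hτ.2
  refine ⟨τ (Sum.inl j) / τ (Sum.inl c), ?_⟩
  rw [map_div₀, div_eq_iff h3, ← h2, mul_comm]

/-- A product of linear forms which vanishes at the points, but not on the curve. -/
theorem exists_prod (hfo : FiniteOver G) (z : Fin (n + 1) ⊕ W → L)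
    (hz : ∀ i, aeval z (G i) = 0) {c : Fin (n + 1)} (hc : z (Sum.inl c) = 1)
    (hnc : ∃ v, z v ∉ Set.range (algebraMap K L)) {S : Finset (Fin (n + 1) ⊕ W → K)} {δ : ℕ}
    (hS : ∀ p ∈ S, ∃ c, p (Sum.inl c) ≠ 0) (hb : S.card ≤ δ) :
    ∃ ψ : MvPolynomial (Fin (n + 1) ⊕ W) K, ψ.IsWeightedHomogeneous (wts e) δ ∧
      (∀ p ∈ S, eval p ψ = 0) ∧ aeval z ψ ≠ 0 := by
  classical
  have h1 : ∀ p : Fin (n + 1) ⊕ W → K, p ∈ S → ∃ ℓ : MvPolynomial (Fin (n + 1) ⊕ W) K,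
      ℓ.IsWeightedHomogeneous (wts e) 1 ∧ eval p ℓ = 0 ∧ aeval z ℓ ≠ 0 := by
    intro p hp
    by_contra hcon
    push Not at hcon
    have h2 : ∀ i j : Fin (n + 1), algebraMap K L (p (Sum.inl i)) * z (Sum.inl j) =
        algebraMap K L (p (Sum.inl j)) * z (Sum.inl i) := by
      intro i j
      have h3 := hcon (C (p (Sum.inl i)) * X (Sum.inl j) - C (p (Sum.inl j)) * X (Sum.inl i))
        ((homCX _ _).sub (homCX _ _)) (by
          rw [map_sub, map_mul, map_mul, eval_C, eval_X, eval_C, eval_X]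
          ring)
      rw [map_sub, map_mul, map_mul, aeval_C, aeval_X, aeval_C, aeval_X, sub_eq_zero] at h3
      exact h3
    obtain ⟨i, hi⟩ := hS p hp
    have hi0 : algebraMap K L (p (Sum.inl i)) ≠ 0 := by
      rw [Ne, map_eq_zero]; exact hi
    have h3 := h2 i c
    rw [hc, mul_one] at h3
    have hc0 : algebraMap K L (p (Sum.inl c)) ≠ 0 := by
      intro h
      rw [h, zero_mul] at h3
      exact hi0 h3
    obtain ⟨v, hv⟩ := hnc
    refine hv (const_of_x hfo z hz (fun j => ?_) v)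
    have h4 := h2 c j
    rw [hc, mul_one] at h4
    refine ⟨p (Sum.inl j) / p (Sum.inl c), ?_⟩
    rw [map_div₀, div_eq_iff hc0, ← h4, mul_comm]
  choose! ℓ hℓ using h1
  refine ⟨(∏ p ∈ S, ℓ p) * X (Sum.inl c) ^ (δ - S.card), ?_, fun p hp => ?_, ?_⟩
  · have h2 := IsWeightedHomogeneous.prod S ℓ (fun _ => 1) fun p hp => (hℓ p hp).1
    have h3 := h2.mul ((homX (K := K) (e := e) c).pow (δ - S.card))
    have h4 : ∑ p ∈ S, 1 + (δ - S.card) • 1 = δ := by
      rw [Finset.sum_const, smul_eq_mul, smul_eq_mul]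
      omega
    rw [h4] at h3
    exact h3
  · rw [map_mul, map_prod, Finset.prod_eq_zero hp (hℓ p hp).2.1, zero_mul]
  · rw [map_mul, map_prod, map_pow, aeval_X, hc, one_pow, mul_one]
    exact Finset.prod_ne_zero_iff.2 fun p hp => (hℓ p hp).2.2

/-- The degree of the exceptional divisor. -/
theorem excDeg_le_height [CharZero K] [IsFF K L] [Finite W]
    (hGh : ∀ i, ∃ c, (G i).IsWeightedHomogeneous (wts e) c) (hfo : FiniteOver G)
    (z : Fin (n + 1) ⊕ W → L)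
    (hz : ∀ i, aeval z (G i) = 0) {c : Fin (n + 1)} (hc : z (Sum.inl c) = 1)
    (hnc : ∃ v, z v ∉ Set.range (algebraMap K L)) {S : Finset (Fin (n + 1) ⊕ W → K)} {δ : ℕ}
    (hS : PointSet e G S) (hb : S.card ≤ δ ∨ FiniteBase e G S δ) :
    excDeg K e S z ≤ δ * pht K fun j => z (Sum.inl j) := by
  have hx : (fun j => z (Sum.inl j)) ≠ 0 := ne_zero_of_one (c := c) hc
  obtain ⟨ψ, h1, h2, h3⟩ : ∃ ψ : MvPolynomial (Fin (n + 1) ⊕ W) K,
      ψ.IsWeightedHomogeneous (wts e) δ ∧ (∀ p ∈ S, eval p ψ = 0) ∧ aeval z ψ ≠ 0 := by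
    rcases hb with hb | hb
    · exact exists_prod hfo z hz hc hnc (fun p hp => (hS.1 p hp).2) hb
    · exact exists_form hfo z hz hc hnc hb
  exact excDeg_le hx (fun P s => ge_coords hGh hfo z hz hx P s) h1 h3 (fun p hp => (hS.1 p hp).2)
    hS.2 h2

end

variable {k K : Type} [Field k] [Field K] [IsAlgClosed K] [CharZero K] [Algebra k K]
  {n m : ℕ} {A : Type} [Fintype A] [DecidableEq A] {d q : A → ℕ} {W ι : Type}

/-- Canonical degrees and genera of the curves on the blow-ups. -/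
theorem blowup_genus (V : Set (MvPolynomial (Fin (n + 1)) (algebraicClosure k K)))
    (hVh : ∀ f ∈ V, ∃ e, f.IsHomogeneous e) (hV : DimLE (algebraicClosure k K) V m)
    (F : A → MvPolynomial (Fin (n + 1)) K) (hF : Generic k d F) (C : Finset A)
    (hq : ∀ a, a ∉ C → q a ≠ 0)
    (hd : (2 * m : ℚ) < ∑ a ∈ C, ((d a : ℚ) + 1) + ∑ a ∈ Cᶜ, (d a : ℚ) * (1 - 1 / q a))
    [Fintype W] (e : W → ℕ) (G : ι → MvPolynomial (Fin (n + 1) ⊕ W) K)
    (hGh : ∀ i, ∃ c, (G i).IsWeightedHomogeneous (wts e) c) (hfo : FiniteOver G)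
    (hov : Over V F C G) (hram : ∀ a, a ∉ C → RamifiedOver G (F a) (q a)) (w : ℕ) (hw : 1 ≤ w)
    (κ : ℚ) (hκ0 : 0 ≤ κ) (hκ : CanonicalBound e G w κ) {S : Finset (Fin (n + 1) ⊕ W → K)} {δ : ℕ}
    (hS : PointSet e G S) (hb : S.card ≤ δ ∨ FiniteBase e G S δ) (α : ℚ)
    (hα : κ + ((w : ℚ) - 1) * δ ≤ α *
      (∑ a ∈ C, ((d a : ℚ) + 1) + ∑ a ∈ Cᶜ, (d a : ℚ) * (1 - 1 / q a) - 2 * m)) :
    BlowupGenusBound e G S w α := by
  intro L _ _ _ z c hz1 hz hnc u hu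
  have h1 := curve_proj V hVh hV F hF C hq e G hGh hfo hov hram L z c hz1 hz hnc
  have h2 := hκ L z c hz1 hz hnc u hu
  have h3 := excDeg_le_height hGh hfo z hz hz1 hnc hS hb
  have h4 : (excDeg K e S z : ℚ) ≤ δ * pht K fun j => z (Sum.inl j) := by exact_mod_cast h3
  have hw1 : (0 : ℚ) ≤ (w : ℚ) - 1 := by
    have : (1 : ℚ) ≤ w := by exact_mod_cast hw
    linarith
  have h5 : (canBl K e S z u : ℚ) = canX K e z u + ((w : ℚ) - 1) * excDeg K e S z := by
    unfold canBl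
    push_cast
    ring
  rw [h5]
  obtain ⟨η, hη⟩ : ∃ η, η = ∑ a ∈ C, ((d a : ℚ) + 1) + ∑ a ∈ Cᶜ, (d a : ℚ) * (1 - 1 / q a) -
    2 * m := ⟨_, rfl⟩
  have hη0 : 0 < η := by rw [hη]; linarith
  rw [← hη] at h1 hα
  have h6 := mul_le_mul_of_nonneg_left h4 hw1
  have h7 : (0 : ℚ) ≤ κ + ((w : ℚ) - 1) * δ := by positivity
  have hα0 : 0 ≤ α := by
    by_contra hcon
    push Not at hcon
    have := mul_neg_of_neg_of_pos hcon hη0
    linarith
  have h8 : (0 : ℚ) ≤ pht K fun j => z (Sum.inl j) := by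
    exact_mod_cast pht_nonneg' (K := K) (c := c) hz1
  calc (canX K e z u : ℚ) + ((w : ℚ) - 1) * excDeg K e S z
      ≤ (κ + ((w : ℚ) - 1) * δ) * pht K fun j => z (Sum.inl j) := by linarith
    _ ≤ α * η * pht K fun j => z (Sum.inl j) := mul_le_mul_of_nonneg_right hα h8
    _ = α * (η * pht K fun j => z (Sum.inl j)) := by ring
    _ ≤ α * canDeg K L := mul_le_mul_of_nonneg_left h1 hα0

end Pool.Agent.U492.VB
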