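import Pool.Agent.U492.VB.Core

/-!
Plane curves with given multiplicities at given points, and their orders on other curves.
-/

set_option autoImplicit false

open MvPolynomial FF Pool.Agent.W603.LV Pool.Agent.W603.PV

namespace Pool.Agent.U492.VB

section

variable {K : Type} [Field K]

/-- The homogeneous ideal of the point `y` of the plane. -/
noncomputable def ptI (y : Fin 3 → K) : Ideal (MvPolynomial (Fin 3) K) :=
  Ideal.span (Set.range fun v : Fin 3 × Fin 3 => C (y v.1) * X v.2 - C (y v.2) * X v.1)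

/-- The polynomials whose values have orders at least `m`. -/
def ordI {L : Type} [Field L] [Algebra K L] {σ : Type} (P : Place K L) (Y : σ → L)
    (hY : ∀ i, Ge P 0 (Y i)) (m : ℤ) : Ideal (MvPolynomial σ K) where
  carrier := {f | Ge P m (aeval Y f)}
  add_mem' {a b} ha hb := by
    change Ge P m (aeval Y (a + b))
    rw [map_add]
    exact Ge.add ha hb
  zero_mem' := by
    change Ge P m (aeval Y 0)
    rw [map_zero]
    exact Ge.zero
  smul_mem' c x hx := by
    change Ge P m (aeval Y (c * x))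
    rw [map_mul]
    have h1 : Ge P 0 (aeval Y c) :=
      (ge_close P le_rfl hY (fun _ => Ge.zero) c (b := fun _ => 0)).1
    have := h1.mul hx
    rwa [zero_add] at this

/-- The orders of the values of the elements of the powers of the ideal of a point. -/
theorem ge_pow {L : Type} [Field L] [Algebra K L] (P : Place K L) {Y : Fin 3 → L}
    (hY : ∀ i, Ge P 0 (Y i)) {y : Fin 3 → K} {N : ℤ}
    (h : ∀ i j, Ge P N (algebraMap K L (y i) * Y j - algebraMap K L (y j) * Y i)) (r : ℕ)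
    {ψ : MvPolynomial (Fin 3) K} (hψ : ψ ∈ ptI y ^ r) : Ge P (r * N) (aeval Y ψ) := by
  have h1 : ptI y ≤ ordI P Y hY N := by
    unfold ptI
    rw [Ideal.span_le]
    rintro _ ⟨⟨i, j⟩, rfl⟩
    change Ge P N (aeval Y (C (y i) * X j - C (y j) * X i))
    rw [map_sub, map_mul, map_mul, aeval_C, aeval_X, aeval_C, aeval_X]
    exact h i j
  have h2 : ∀ r : ℕ, ptI y ^ r ≤ ordI P Y hY (r * N) := by
    intro r
    induction r with
    | zero =>
      intro f _
      change Ge P _ (aeval Y f)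
      have h3 : Ge P 0 (aeval Y f) :=
        (ge_close P le_rfl hY (fun _ => Ge.zero) f (b := fun _ => 0)).1
      simpa using h3
    | succ r ih =>
      rw [pow_succ, Ideal.mul_le]
      intro a ha b hb
      change Ge P _ (aeval Y (a * b))
      rw [map_mul]
      have h3 : Ge P (r * N) (aeval Y a) := ih ha
      have h4 : Ge P N (aeval Y b) := h1 hb
      have h5 := h3.mul h4
      refine h5.mono (le_of_eq ?_)
      push_cast
      ring
  exact h2 r hψ

/-- The exponents. -/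
abbrev Ix (r : ℕ) : Type := (k : Fin r) × Fin (k.1 + 1)

theorem card_Ix (r : ℕ) : Fintype.card (Ix r) * 2 = r * (r + 1) := by
  have h1 : Fintype.card (Ix r) = ∑ k ∈ Finset.range r, (k + 1) := by
    rw [Fintype.card_sigma]
    simp only [Fintype.card_fin]
    rw [Finset.sum_range fun k => k + 1]
  rw [h1]
  induction r with
  | zero => simp
  | succ r ih =>
    rw [Finset.sum_range_succ, add_mul, ih (by
      rw [Fintype.card_sigma]
      simp only [Fintype.card_fin]
      rw [Finset.sum_range fun k => k + 1])]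
    ring

/-- The forms of degree `δ` modulo the `r`-th power of the ideal of a point. -/
theorem mem_span {y : Fin 3 → K} {i0 : Fin 3} (hy : y i0 ≠ 0) (δ r : ℕ)
    {f : MvPolynomial (Fin 3) K} (hf : f.IsHomogeneous δ) :
    f ∈ Submodule.span K (Set.range fun v : Ix r => X i0 ^ (δ - v.1.1) *
      (C (y i0) * X (i0 + 1) - C (y (i0 + 1)) * X i0) ^ (v.1.1 - v.2.1) *
      (C (y i0) * X (i0 + 2) - C (y (i0 + 2)) * X i0) ^ v.2.1) ⊔
      (ptI y ^ r).restrictScalars K := by
  classical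
  obtain ⟨ℓ, hℓ⟩ : ∃ ℓ : Fin 3 → MvPolynomial (Fin 3) K, ∀ j, ℓ j = C (y i0) * X j - C (y j) * X i0 :=
    ⟨_, fun _ => rfl⟩
  obtain ⟨B, hB⟩ : ∃ B : Fin 3 → MvPolynomial (Fin 3) K, ∀ j, B j = if j = i0 then X i0 else ℓ j :=
    ⟨_, fun _ => rfl⟩
  obtain ⟨A, hA⟩ : ∃ A : Fin 3 → MvPolynomial (Fin 3) K, ∀ j, A j = if j = i0 then X i0 else
    C ((y i0)⁻¹) * (C (y j) * X i0 + X j) := ⟨_, fun _ => rfl⟩
  have hAh : ∀ j, (A j).IsHomogeneous 1 := by
    intro j
    rw [hA]
    split_ifs with h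
    · exact isHomogeneous_X K i0
    · have h1 := (isHomogeneous_C (Fin 3) (y j)).mul (isHomogeneous_X K i0)
      rw [zero_add] at h1
      have h2 := (isHomogeneous_C (Fin 3) ((y i0)⁻¹)).mul (h1.add (isHomogeneous_X K j))
      rwa [zero_add] at h2
  have hBA : ∀ j, aeval B (A j) = X j := by
    intro j
    rw [hA]
    split_ifs with h
    · rw [aeval_X, hB, if_pos rfl, h]
    · rw [map_mul, aeval_C, map_add, map_mul, aeval_C, aeval_X, aeval_X, hB, if_pos rfl, hB,
        if_neg h, hℓ]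
      have h1 : algebraMap K (MvPolynomial (Fin 3) K) = C := rfl
      rw [h1]
      have h2 : (C ((y i0)⁻¹) * C (y i0) : MvPolynomial (Fin 3) K) = 1 := by
        rw [← C_mul, inv_mul_cancel₀ hy, C_1]
      linear_combination X j * h2
  obtain ⟨g, hg⟩ : ∃ g, g = aeval A f := ⟨_, rfl⟩
  have hgh : g.IsHomogeneous δ := by
    rw [hg]
    have := hf.aeval A hAh
    rwa [one_mul] at this
  have hfg : f = aeval B g := by
    rw [hg, ← AlgHom.comp_apply]
    have h1 : (aeval B : MvPolynomial (Fin 3) K →ₐ[K] MvPolynomial (Fin 3) K).comp (aeval A) =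
        AlgHom.id K _ := by
      apply MvPolynomial.algHom_ext
      intro j
      rw [AlgHom.comp_apply, aeval_X, hBA, AlgHom.id_apply]
    rw [h1, AlgHom.id_apply]
  have hℓI : ∀ j, ℓ j ∈ ptI y := by
    intro j
    rw [hℓ]
    exact Ideal.subset_span ⟨(i0, j), rfl⟩
  rw [hfg, aeval_def, eval₂_eq']
  refine Submodule.sum_mem _ fun α hα => ?_
  have hdeg : α 0 + α 1 + α 2 = δ := by
    have h1 := hgh (mem_support_iff.1 hα)
    rw [Finsupp.weight_apply, Finsupp.sum_fintype _ _ (by simp), Fin.sum_univ_three] at h1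
    simpa using h1
  have hprod : ∏ i, B i ^ α i = X i0 ^ α i0 * ℓ (i0 + 1) ^ α (i0 + 1) * ℓ (i0 + 2) ^ α (i0 + 2) := by
    have h1 : ∏ i, B i ^ α i = B i0 ^ α i0 * B (i0 + 1) ^ α (i0 + 1) * B (i0 + 2) ^ α (i0 + 2) := by
      rw [Fin.prod_univ_three]
      fin_cases i0
      · rfl
      · simp only [Fin.mk_one, Fin.isValue, Fin.reduceAdd]
        ring
      · simp only [Fin.reduceFinMk, Fin.isValue, Fin.reduceAdd]
        ring
    rw [h1, hB, if_pos rfl, hB, if_neg (by fin_cases i0 <;> decide), hB,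
      if_neg (by fin_cases i0 <;> decide)]
  have hdeg' : α i0 + α (i0 + 1) + α (i0 + 2) = δ := by
    rw [← hdeg]
    fin_cases i0
    · rfl
    · simp only [Fin.mk_one, Fin.isValue, Fin.reduceAdd]
      ring
    · simp only [Fin.reduceFinMk, Fin.isValue, Fin.reduceAdd]
      ring
  have h1 : algebraMap K (MvPolynomial (Fin 3) K) (g.coeff α) * ∏ i, B i ^ α i =
      g.coeff α • ∏ i, B i ^ α i := (Algebra.smul_def _ _).symm
  rw [h1]
  refine Submodule.smul_mem _ _ ?_
  rw [hprod]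
  by_cases hr : α (i0 + 1) + α (i0 + 2) < r
  · refine Submodule.mem_sup_left (Submodule.subset_span
      ⟨⟨⟨α (i0 + 1) + α (i0 + 2), hr⟩, ⟨α (i0 + 2), by
        simp only
        omega⟩⟩, ?_⟩)
    simp only
    rw [← hℓ, ← hℓ]
    have h2 : δ - (α (i0 + 1) + α (i0 + 2)) = α i0 := by omega
    have h3 : α (i0 + 1) + α (i0 + 2) - α (i0 + 2) = α (i0 + 1) := by omega
    rw [h2, h3]
  · refine Submodule.mem_sup_right ?_
    change _ ∈ ptI y ^ r
    rw [mul_assoc]
    refine Ideal.mul_mem_left _ _ ?_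
    have h2 : ℓ (i0 + 1) ^ α (i0 + 1) * ℓ (i0 + 2) ^ α (i0 + 2) ∈
        ptI y ^ α (i0 + 1) * ptI y ^ α (i0 + 2) :=
      Ideal.mul_mem_mul (Ideal.pow_mem_pow (hℓI _) _) (Ideal.pow_mem_pow (hℓI _) _)
    rw [← pow_add] at h2
    exact Ideal.pow_le_pow_right (by omega) h2

/-- A common zero of linear maps. -/
theorem exists_common {V I : Type} [AddCommGroup V] [Module K V] [FiniteDimensional K V] [Fintype I]
    {E : I → Type} [∀ i, AddCommGroup (E i)] [∀ i, Module K (E i)] (f : ∀ i, V →ₗ[K] E i)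
    (N : ∀ i, Submodule K (E i)) (hN : ∀ i v, f i v ∈ N i) [∀ i, FiniteDimensional K (N i)]
    (h : ∑ i, Module.finrank K (N i) < Module.finrank K V) : ∃ v, v ≠ 0 ∧ ∀ i, f i v = 0 := by
  have h1 : Module.finrank K (∀ i, N i) < Module.finrank K V := by
    rw [Module.finrank_pi_fintype]
    exact h
  obtain ⟨c, hc, hc0⟩ := Submodule.exists_mem_ne_zero_of_ne_bot
    (LinearMap.ker_ne_bot_of_finrank_lt (f := LinearMap.pi fun i =>
      LinearMap.codRestrict (N i) (f i) (hN i)) h1)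
  refine ⟨c, hc0, fun i => ?_⟩
  have h2 := congrFun (LinearMap.mem_ker.1 hc) i
  exact congrArg Subtype.val h2

/-- A plane curve of degree `δ` with multiplicities at least `r` at the points `y ∈ Y`. -/
theorem exists_plane (Y : Finset (Fin 3 → K)) (hY : ∀ y ∈ Y, y ≠ 0) (δ r : ℕ)
    (h : Y.card * (r * (r + 1)) < (δ + 1) * (δ + 2)) :
    ∃ ψ : MvPolynomial (Fin 3) K, ψ ≠ 0 ∧ ψ.IsHomogeneous δ ∧ ∀ y ∈ Y, ψ ∈ ptI y ^ r := by
  classical
  obtain ⟨ex, hex⟩ : ∃ ex : Ix (δ + 1) → Fin 3 →₀ ℕ, ∀ v, ex v =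
    Finsupp.equivFunOnFinite.symm ![δ - v.1.1, v.1.1 - v.2.1, v.2.1] := ⟨_, fun _ => rfl⟩
  have hex1 : ∀ v, ex v 1 = v.1.1 - v.2.1 := fun v => by rw [hex]; rfl
  have hex2 : ∀ v, ex v 2 = v.2.1 := fun v => by rw [hex]; rfl
  have hex0 : ∀ v, ex v 0 = δ - v.1.1 := fun v => by rw [hex]; rfl
  have hinj : Function.Injective ex := by
    rintro ⟨⟨a, ha⟩, ⟨b, hb⟩⟩ ⟨⟨a', ha'⟩, ⟨b', hb'⟩⟩ hvv
    have h1 := DFunLike.congr_fun hvv 1
    have h2 := DFunLike.congr_fun hvv 2
    rw [hex1, hex1] at h1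
    rw [hex2, hex2] at h2
    simp only at h1 h2 hb hb'
    have h3 : a = a' := by omega
    subst h3
    subst h2
    rfl
  obtain ⟨Λ, hΛ⟩ : ∃ Λ : (Ix (δ + 1) → K) →ₗ[K] MvPolynomial (Fin 3) K,
      ∀ c, Λ c = ∑ v, monomial (ex v) (c v) := by
    refine ⟨∑ v, (monomial (ex v)).comp (LinearMap.proj v), fun c => ?_⟩
    rw [LinearMap.sum_apply]
    rfl
  have hΛ0 : ∀ c, Λ c = 0 → c = 0 := by
    intro c hc
    funext v
    have h1 := congrArg (coeff (ex v)) hc
    rw [hΛ, coeff_sum, Finset.sum_eq_single v, coeff_monomial, if_pos rfl, coeff_zero] at h1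
    · exact h1
    · intro w _ hw
      rw [coeff_monomial, if_neg fun h => hw (hinj h)]
    · intro h
      exact absurd (Finset.mem_univ v) h
  have hΛh : ∀ c, (Λ c).IsHomogeneous δ := by
    intro c
    rw [hΛ]
    refine IsHomogeneous.sum _ _ _ fun v _ => isHomogeneous_monomial _ ?_
    rw [Finsupp.degree_eq_sum, Fin.sum_univ_three, hex0, hex1, hex2]
    obtain ⟨⟨a, ha⟩, ⟨b, hb⟩⟩ := v
    simp only at hb ⊢
    omega
  obtain ⟨Q, hQ⟩ : ∃ Q : Y → Submodule K (MvPolynomial (Fin 3) K), ∀ y : Y, Q y =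
    (ptI y.1 ^ r).restrictScalars K := ⟨_, fun _ => rfl⟩
  have hi0 : ∀ y : Y, ∃ i, y.1 i ≠ 0 := fun y => Function.ne_iff.1 (hY y.1 y.2)
  choose i0 hi0 using hi0
  obtain ⟨wv, hwv⟩ : ∃ wv : (y : Y) → Ix r → MvPolynomial (Fin 3) K ⧸ Q y, ∀ y v, wv y v =
    (Q y).mkQ (X (i0 y) ^ (δ - v.1.1) *
      (C (y.1 (i0 y)) * X (i0 y + 1) - C (y.1 (i0 y + 1)) * X (i0 y)) ^ (v.1.1 - v.2.1) *
      (C (y.1 (i0 y)) * X (i0 y + 2) - C (y.1 (i0 y + 2)) * X (i0 y)) ^ v.2.1) :=
    ⟨_, fun _ _ => rfl⟩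
  have hmem : ∀ (y : Y) c, (Q y).mkQ (Λ c) ∈ Submodule.span K (Set.range (wv y)) := by
    intro y c
    have h1 := mem_span (hi0 y) δ r (hΛh c)
    rw [Submodule.mem_sup] at h1
    obtain ⟨a, ha, b, hb, hab⟩ := h1
    rw [← hab, map_add]
    have h2 : (Q y).mkQ b = 0 := by
      rw [Submodule.mkQ_apply, Submodule.Quotient.mk_eq_zero, hQ]
      exact hb
    rw [h2, add_zero]
    have h3 : Submodule.map (Q y).mkQ (Submodule.span K (Set.range fun v : Ix r =>
        X (i0 y) ^ (δ - v.1.1) *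
      (C (y.1 (i0 y)) * X (i0 y + 1) - C (y.1 (i0 y + 1)) * X (i0 y)) ^ (v.1.1 - v.2.1) *
      (C (y.1 (i0 y)) * X (i0 y + 2) - C (y.1 (i0 y + 2)) * X (i0 y)) ^ v.2.1)) =
        Submodule.span K (Set.range (wv y)) := by
      rw [Submodule.map_span, ← Set.range_comp]
      congr 1
      congr 1
      funext v
      rw [hwv]
      rfl
    rw [← h3]
    exact Submodule.mem_map_of_mem ha
  have hfin : ∀ y : Y, FiniteDimensional K (Submodule.span K (Set.range (wv y))) := fun y =>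
    FiniteDimensional.span_of_finite K (Set.finite_range _)
  have hdim : ∑ y : Y, Module.finrank K (Submodule.span K (Set.range (wv y))) <
      Module.finrank K (Ix (δ + 1) → K) := by
    rw [Module.finrank_fintype_fun_eq_card]
    have h1 : ∑ y : Y, Module.finrank K (Submodule.span K (Set.range (wv y))) ≤
        ∑ _y : Y, Fintype.card (Ix r) := Finset.sum_le_sum fun y _ => finrank_range_le_card (wv y)
    rw [Finset.sum_const, Finset.card_univ, Fintype.card_coe, smul_eq_mul] at h1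
    have h2 := card_Ix r
    have h3 := card_Ix (δ + 1)
    have h4 : Y.card * Fintype.card (Ix r) * 2 < Fintype.card (Ix (δ + 1)) * 2 := by
      rw [mul_assoc, h2, h3]
      exact h
    omega
  obtain ⟨c, hc0, hc⟩ := exists_common (fun y : Y => (Q y).mkQ.comp Λ)
    (fun y => Submodule.span K (Set.range (wv y))) hmem hdim
  refine ⟨Λ c, fun h0 => hc0 (hΛ0 c h0), hΛh c, fun y hy => ?_⟩
  have h2 : (Q ⟨y, hy⟩).mkQ (Λ c) = 0 := hc ⟨y, hy⟩
  rw [Submodule.mkQ_apply, Submodule.Quotient.mk_eq_zero, hQ] at h2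
  exact h2

end

end Pool.Agent.U492.VB
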