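import Pool.Agent.U492.VB.DefsP
import Pool.Agent.U492.VB.Plane
import Pool.Agent.U492.VB.Main

/-!
Curves on blow-ups at arbitrary finite sets of points of surfaces which are finite coverings ramified
over generic hypersurfaces.
-/

set_option autoImplicit false

open MvPolynomial FF Pool.Agent.W603.LV Pool.Agent.W603.PV
open Pool.Agent.TH145.MG (DimLE)

namespace Pool.Agent.U492.VB

open Pool.Agent.N126.RC

section

variable {K L : Type} [Field K] [Field L] [Algebra K L] {n : ℕ} {W ι : Type} {e : W → ℕ}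

theorem map_toPlane (lam : Fin 3 → Fin (n + 1) → K) (p : Fin (n + 1) ⊕ W → K) (i : Fin 3) :
    algebraMap K L (toPlane lam p i) =
      ∑ j, algebraMap K L (lam i j) * algebraMap K L (p (Sum.inl j)) := by
  unfold toPlane
  rw [map_sum]
  exact Finset.sum_congr rfl fun j _ => by rw [map_mul]; rfl

/-- The order at a place of a form in three linear forms. -/
theorem local_r [Finite W] {z : Fin (n + 1) ⊕ W → L} (hx : (fun j => z (Sum.inl j)) ≠ 0)
    (P : Place K L) (hge : ∀ s, Ge P (wts e s * pord P fun j => z (Sum.inl j)) (z s))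
    {lam : Fin 3 → Fin (n + 1) → K} {ψ : MvPolynomial (Fin 3) K} {δ r : ℕ}
    (hψ : ψ.IsHomogeneous δ) (hψz : aeval (toPlane lam z) ψ ≠ 0) :
    0 ≤ P.ord (aeval (toPlane lam z) ψ) - δ * (pord P fun j => z (Sum.inl j)) ∧
    ∀ (p : Fin (n + 1) ⊕ W → K) (y : Fin 3 → K), (∃ t : K, t ≠ 0 ∧ ∀ i, toPlane lam p i = t * y i) →
      ψ ∈ ptI y ^ r →
      r * pointOrd e z p P ≤
        P.ord (aeval (toPlane lam z) ψ) - δ * (pord P fun j => z (Sum.inl j)) := by
  obtain ⟨t, z', ht0, ht, hzz, hz', j0, hj0⟩ := exists_scaledW hx P hge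
  have hz1 : ∀ j, z (Sum.inl j) = t * z' (Sum.inl j) := by
    intro j
    have := hzz (Sum.inl j)
    simpa only [wts, Sum.elim_inl, pow_one] using this
  have hY : ∀ i, toPlane lam z i = t ^ (1 : Fin 3 → ℕ) i * toPlane lam z' i := by
    intro i
    unfold toPlane
    rw [Pi.one_apply, pow_one, Finset.mul_sum]
    exact Finset.sum_congr rfl fun j _ => by rw [hz1]; ring
  have h1 : aeval (toPlane lam z) ψ = t ^ δ * aeval (toPlane lam z') ψ :=
    Pool.Agent.N617.RC.eval_scale (algebraMap K L) 1 δ ψ hψ t (toPlane lam z) (toPlane lam z') hY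
  have h2 : aeval (toPlane lam z') ψ ≠ 0 := by
    intro h
    rw [h, mul_zero] at h1
    exact hψz h1
  have h3 : P.ord (aeval (toPlane lam z) ψ) - δ * (pord P fun j => z (Sum.inl j)) =
      P.ord (aeval (toPlane lam z') ψ) := by
    rw [h1, P.ord_mul (pow_ne_zero _ ht0) h2, P.ord_pow, ht]
    ring
  have hY0 : ∀ i, Ge P 0 (toPlane lam z' i) := by
    intro i
    refine Ge.sum _ _ fun j _ => ?_
    have := (Ge.const (P := P) (lam i j)).mul (hz' (Sum.inl j))
    rwa [add_zero] at this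
  rw [h3]
  have h4 : 0 ≤ P.ord (aeval (toPlane lam z') ψ) :=
    (ge_close P le_rfl hY0 (fun _ => Ge.zero) ψ (b := fun _ => 0)).1.resolve_left h2
  refine ⟨h4, ?_⟩
  rintro p y ⟨τ, hτ, hτy⟩ hψy
  have hN : ∀ a b, Ge P (pointOrd e z p P) (algebraMap K L (p (Sum.inl a)) * z' (Sum.inl b) -
      algebraMap K L (p (Sum.inl b)) * z' (Sum.inl a)) := by
    intro a b
    have := ge_loc ht0 ht hzz p a (Sum.inl b)
    simpa only [wts, Sum.elim_inl, pow_one] using this
  have h5 : ∀ i j, Ge P (pointOrd e z p P) (algebraMap K L (y i) * toPlane lam z' j -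
      algebraMap K L (y j) * toPlane lam z' i) := by
    intro i j
    have hτ0 : algebraMap K L τ ≠ 0 := by
      rw [Ne, map_eq_zero]; exact hτ
    refine Ge.of_mul' (h := algebraMap K L τ) (m := 0) hτ0 (P.ord_const hτ) ?_
    have h6 : algebraMap K L τ * (algebraMap K L (y i) * toPlane lam z' j -
        algebraMap K L (y j) * toPlane lam z' i) =
        ∑ a, ∑ b, algebraMap K L (lam i a) * algebraMap K L (lam j b) *
          (algebraMap K L (p (Sum.inl a)) * z' (Sum.inl b) -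
            algebraMap K L (p (Sum.inl b)) * z' (Sum.inl a)) := by
      have h7 : algebraMap K L τ * algebraMap K L (y i) =
          ∑ a, algebraMap K L (lam i a) * algebraMap K L (p (Sum.inl a)) := by
        rw [← map_mul, ← hτy, map_toPlane]
      have h8 : algebraMap K L τ * algebraMap K L (y j) =
          ∑ a, algebraMap K L (lam j a) * algebraMap K L (p (Sum.inl a)) := by
        rw [← map_mul, ← hτy, map_toPlane]
      rw [mul_sub, ← mul_assoc, ← mul_assoc, h7, h8]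
      unfold toPlane
      rw [Finset.sum_mul_sum, mul_comm (∑ a, algebraMap K L (lam j a) * _), Finset.sum_mul_sum,
        ← Finset.sum_sub_distrib]
      refine Finset.sum_congr rfl fun a _ => ?_
      rw [← Finset.sum_sub_distrib]
      exact Finset.sum_congr rfl fun b _ => by ring
    rw [h6, add_zero]
    refine Ge.sum _ _ fun a _ => Ge.sum _ _ fun b _ => ?_
    have h7 := ((Ge.const (P := P) (lam i a)).mul (Ge.const (P := P) (lam j b))).mul (hN a b)
    rw [zero_add, zero_add] at h7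
    exact h7
  exact (ge_pow P hY0 h5 r hψy).resolve_left h2

/-- The sum over the points and over the places. -/
theorem excDeg_le_r [IsAlgClosed K] [CharZero K] [IsFF K L] [Finite W] {z : Fin (n + 1) ⊕ W → L}
    (hx : (fun j => z (Sum.inl j)) ≠ 0)
    (hge : ∀ (P : Place K L) s, Ge P (wts e s * pord P fun j => z (Sum.inl j)) (z s))
    {lam : Fin 3 → Fin (n + 1) → K} {ψ : MvPolynomial (Fin 3) K} {δ r : ℕ}
    (hψ : ψ.IsHomogeneous δ) (hψz : aeval (toPlane lam z) ψ ≠ 0)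
    {S : Finset (Fin (n + 1) ⊕ W → K)}
    (hS : ∀ p ∈ S, ∃ c, p (Sum.inl c) ≠ 0)
    (hS' : ∀ p ∈ S, ∀ p' ∈ S, (∃ t : K, ∀ v, p' v = t ^ wts e v * p v) → p = p')
    (hψS : ∀ p ∈ S, ∃ y : Fin 3 → K, (∃ t : K, t ≠ 0 ∧ ∀ i, toPlane lam p i = t * y i) ∧
      ψ ∈ ptI y ^ r) : r * excDeg K e S z ≤ δ * pht K fun j => z (Sum.inl j) := by
  classical
  have hloc : ∀ P : Place K L, r * ∑ p ∈ S, pointOrd e z p P ≤
      P.ord (aeval (toPlane lam z) ψ) - δ * (pord P fun j => z (Sum.inl j)) := by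
    intro P
    obtain ⟨h0, h1⟩ := local_r (r := r) hx P (hge P) hψ hψz
    have hr : (0 : ℤ) ≤ r := Int.natCast_nonneg r
    by_cases hpos : ∃ p ∈ S, 0 < pointOrd e z p P
    · obtain ⟨p, hp, hpP⟩ := hpos
      rw [← Finset.add_sum_erase S _ hp]
      have h2 : ∑ p' ∈ S.erase p, pointOrd e z p' P ≤ 0 := by
        refine Finset.sum_nonpos fun p' hp' => ?_
        by_contra hcon
        have h3 := hS' p hp p' (Finset.mem_of_mem_erase hp')
          (same_point hx P (hge P) (hS p hp) (hS p' (Finset.mem_of_mem_erase hp')) hpP (by omega))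
        exact Finset.ne_of_mem_erase hp' h3.symm
      obtain ⟨y, hy, hψy⟩ := hψS p hp
      have h3 := h1 p y hy hψy
      have h4 := mul_nonpos_of_nonneg_of_nonpos hr h2
      rw [mul_add]
      linarith
    · push Not at hpos
      exact (mul_nonpos_of_nonneg_of_nonpos hr (Finset.sum_nonpos fun p hp => hpos p hp)).trans h0
  have hfs : (Function.support fun P : Place K L =>
      (δ : ℤ) * pord P fun j => z (Sum.inl j)).Finite := by
    refine (pord_finite (k := K) (Function.ne_iff.1 hx)).subset fun P hP => ?_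
    rw [Function.mem_support] at hP ⊢
    exact fun h => hP (by rw [h, mul_zero])
  have h1 : r * excDeg K e S z = ∑ᶠ P : Place K L, (r : ℤ) * ∑ p ∈ S, pointOrd e z p P := by
    unfold excDeg
    rw [← finsum_sum_comm S _ fun p _ => finite_pointOrd hx p, ← mul_finsum]
  have h2 : ∑ᶠ P : Place K L, (P.ord (aeval (toPlane lam z) ψ) -
      δ * pord P fun j => z (Sum.inl j)) = δ * pht K fun j => z (Sum.inl j) := by
    rw [finsum_sub_distrib (finite_support _) hfs, sum_ord, ← mul_finsum]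
    unfold pht
    ring
  rw [h1, ← h2]
  refine finsum_le_finsum' ?_ ?_ fun P => ?_
  · refine (Set.Finite.biUnion S.finite_toSet fun p _ =>
      finite_pointOrd (K := K) (e := e) hx p).subset fun P hP => ?_
    rw [Function.mem_support] at hP
    obtain ⟨p, hp, h⟩ := Finset.exists_ne_zero_of_sum_ne_zero (right_ne_zero_of_mul hP)
    exact Set.mem_biUnion (Finset.mem_coe.2 hp) h
  · refine ((finite_support (k := K) (aeval (toPlane lam z) ψ)).union hfs).subset fun P hP => ?_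
    by_contra hcon
    rw [Set.mem_union, not_or] at hcon
    have h2 : P.ord (aeval (toPlane lam z) ψ) = 0 := not_not.1 hcon.1
    have h3 : ((δ : ℤ) * pord P fun j => z (Sum.inl j)) = 0 := not_not.1 hcon.2
    exact hP (by
      change P.ord (aeval (toPlane lam z) ψ) - ((δ : ℤ) * pord P fun j => z (Sum.inl j)) = 0
      rw [h2, h3, sub_zero])
  · exact hloc P

end

/-- Degrees and multiplicities. -/
theorem exists_nums (s : ℕ) (σ : ℚ) (hσ : 0 ≤ σ) (h : (s : ℚ) < σ ^ 2) : ∃ r δ : ℕ, 0 < r ∧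
    (δ : ℚ) ≤ σ * r ∧ s * (r * (r + 1)) < (δ + 1) * (δ + 2) := by
  obtain ⟨r, hr⟩ : ∃ r, r = ⌈((s : ℚ) - σ) / (σ ^ 2 - s)⌉₊ + 1 := ⟨_, rfl⟩
  have h0 : 0 < σ ^ 2 - (s : ℚ) := by linarith
  have h1 : ((s : ℚ) - σ) / (σ ^ 2 - s) ≤ r := by
    have := Nat.le_ceil (((s : ℚ) - σ) / (σ ^ 2 - s))
    rw [hr]
    push_cast
    linarith
  rw [div_le_iff₀ h0] at h1
  have hr0 : (0 : ℚ) ≤ r := Nat.cast_nonneg r
  have h2 : (0 : ℚ) ≤ σ * r := mul_nonneg hσ hr0
  refine ⟨r, ⌊σ * r⌋₊, by omega, Nat.floor_le h2, ?_⟩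
  have h3 : σ * r < ⌊σ * r⌋₊ + 1 := Nat.lt_floor_add_one _
  have h4 : (s : ℚ) * (r * (r + 1)) ≤ σ * r * (σ * r + 1) := by
    have := mul_le_mul_of_nonneg_right h1 hr0
    nlinarith
  have h5 : σ * r * (σ * r + 1) < ((⌊σ * r⌋₊ : ℚ) + 1) * (⌊σ * r⌋₊ + 2) := by
    have h6 : (0 : ℚ) < ⌊σ * r⌋₊ + 1 := by positivity
    nlinarith
  exact_mod_cast h4.trans_lt h5

variable {k K : Type} [Field k] [Field K] [IsAlgClosed K] [CharZero K] [Algebra k K]
  {n m : ℕ} {A : Type} [Fintype A] [DecidableEq A] {d q : A → ℕ} {W ι : Type}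

/-- Canonical degrees and genera of the curves on the blow-ups at arbitrary points. -/
theorem blowup_genus_any (V : Set (MvPolynomial (Fin (n + 1)) (algebraicClosure k K)))
    (hVh : ∀ f ∈ V, ∃ e, f.IsHomogeneous e) (hV : DimLE (algebraicClosure k K) V m)
    (F : A → MvPolynomial (Fin (n + 1)) K) (hF : Generic k d F) (C : Finset A)
    (hq : ∀ a, a ∉ C → q a ≠ 0)
    (hd : (2 * m : ℚ) < ∑ a ∈ C, ((d a : ℚ) + 1) + ∑ a ∈ Cᶜ, (d a : ℚ) * (1 - 1 / q a))
    [Fintype W] (e : W → ℕ) (G : ι → MvPolynomial (Fin (n + 1) ⊕ W) K)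
    (hGh : ∀ i, ∃ c, (G i).IsWeightedHomogeneous (wts e) c) (hfo : FiniteOver G)
    (hov : Over V F C G) (hram : ∀ a, a ∉ C → RamifiedOver G (F a) (q a))
    (κ : ℚ) (hκ0 : 0 ≤ κ) (hκ : CanonicalBound e G 2 κ) {S : Finset (Fin (n + 1) ⊕ W → K)}
    (hS : PointSet e G S) (lam : Fin 3 → Fin (n + 1) → K) (Y : Finset (Fin 3 → K))
    (hY : PlaneImage lam S Y) (α : ℚ)
    (hα : κ ≤ α *
      (∑ a ∈ C, ((d a : ℚ) + 1) + ∑ a ∈ Cᶜ, (d a : ℚ) * (1 - 1 / q a) - 2 * m))
    (hs : (Y.card : ℚ) < (α *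
      (∑ a ∈ C, ((d a : ℚ) + 1) + ∑ a ∈ Cᶜ, (d a : ℚ) * (1 - 1 / q a) - 2 * m) - κ) ^ 2) :
    ∃ (ψ : MvPolynomial (Fin 3) K) (δ : ℕ), ψ ≠ 0 ∧ ψ.IsHomogeneous δ ∧
      BlowupGenusBoundOff e G S 2 lam ψ α := by
  obtain ⟨η, hη⟩ : ∃ η, η = ∑ a ∈ C, ((d a : ℚ) + 1) + ∑ a ∈ Cᶜ, (d a : ℚ) * (1 - 1 / q a) -
    2 * m := ⟨_, rfl⟩
  have hη0 : 0 < η := by rw [hη]; linarith
  rw [← hη] at hs hα
  obtain ⟨r, δ, hr, hδ, hsr⟩ := exists_nums Y.card (α * η - κ) (by linarith) hs
  obtain ⟨ψ, hψ0, hψh, hψY⟩ := exists_plane Y hY.1 δ r hsr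
  refine ⟨ψ, δ, hψ0, hψh, ?_⟩
  intro L _ _ _ z c hz1 hz hnc hψz u hu
  have h1 := curve_proj V hVh hV F hF C hq e G hGh hfo hov hram L z c hz1 hz hnc
  have h2 := hκ L z c hz1 hz hnc u hu
  have hx : (fun j => z (Sum.inl j)) ≠ 0 := ne_zero_of_one (c := c) hz1
  have h3 : r * excDeg K e S z ≤ δ * pht K fun j => z (Sum.inl j) :=
    excDeg_le_r hx (fun P s => ge_coords hGh hfo z hz hx P s) hψh hψz
      (fun p hp => (hS.1 p hp).2) hS.2 (fun p hp => by
        obtain ⟨y, hy, ht⟩ := hY.2 p hp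
        exact ⟨y, ht, hψY y hy⟩)
  have h4 : (r : ℚ) * excDeg K e S z ≤ δ * pht K fun j => z (Sum.inl j) := by exact_mod_cast h3
  have h8 : (0 : ℚ) ≤ pht K fun j => z (Sum.inl j) := by
    exact_mod_cast pht_nonneg' (K := K) (c := c) hz1
  have hr0 : (0 : ℚ) < r := by exact_mod_cast hr
  have h9 : (excDeg K e S z : ℚ) ≤ (α * η - κ) * pht K fun j => z (Sum.inl j) := by
    have h10 := h4.trans (mul_le_mul_of_nonneg_right hδ h8)
    rw [mul_comm (α * η - κ) (r : ℚ), mul_assoc] at h10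
    exact le_of_mul_le_mul_left h10 hr0
  have h5 : (canBl K e S z u : ℚ) = canX K e z u + excDeg K e S z := by
    unfold canBl
    push_cast
    ring
  rw [h5]
  rw [← hη] at h1
  have hα0 : 0 ≤ α := by
    by_contra hcon
    push Not at hcon
    have := mul_neg_of_neg_of_pos hcon hη0
    linarith
  calc (canX K e z u : ℚ) + excDeg K e S z
      ≤ (α * η) * pht K fun j => z (Sum.inl j) := by linarith
    _ = α * (η * pht K fun j => z (Sum.inl j)) := by ring
    _ ≤ α * canDeg K L := mul_le_mul_of_nonneg_left h1 hα0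

end Pool.Agent.U492.VB
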