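import Pool.Agent.U492.VB.Fin

/-!
The degrees of the curves over a plane curve are bounded.
-/

set_option autoImplicit false

open MvPolynomial FF Pool.Agent.W603.LV Pool.Agent.W603.PV

namespace Pool.Agent.U492.VB

open IntermediateField Pool.Agent.N126.RC

variable {n : ℕ} {W ι : Type}

/-- The projection to the plane is defined at nonconstant points. -/
theorem toPlane_ne {K L : Type} [Field K] [IsAlgClosed K] [Field L] [Algebra K L]
    {G : ι → MvPolynomial (Fin (n + 1) ⊕ W) K} {lam : Fin 3 → Fin (n + 1) → K}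
    (hfp : FinitePlane lam G) (z : Fin (n + 1) ⊕ W → L) (hz : ∀ i, aeval z (G i) = 0)
    (hnc : ∃ v, z v ∉ Set.range (algebraMap K L)) : toPlane lam z ≠ 0 := by
  intro h0
  obtain ⟨v, hv⟩ := hnc
  apply hv
  obtain ⟨p, hp, hpG⟩ := hfp v
  have h1 := plane_point lam p hpG hz
  have h2 : (aeval (toPlane lam z) : MvPolynomial (Fin 3) K →ₐ[K] L).toRingHom =
      (algebraMap K L).comp (eval 0) := by
    apply MvPolynomial.ringHom_ext
    · intro a
      simp
    · intro i
      simp [h0]
  rw [h2, ← Polynomial.map_map, Polynomial.eval_map] at h1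
  have h3 : IsIntegral K (z v) := ⟨p.map (eval 0), hp.map _, h1⟩
  exact minpoly.mem_range_of_degree_eq_one K _
    (IsAlgClosed.degree_eq_one_of_irreducible K (minpoly.irreducible h3))

/-- The degrees of the curves over a plane curve are bounded. -/
theorem pht_bound {K L : Type} [Field K] [IsAlgClosed K] [CharZero K] [Field L] [Algebra K L]
    [IsFF K L] [Fintype W] {e : W → ℕ} {G : ι → MvPolynomial (Fin (n + 1) ⊕ W) K}
    (hGh : ∀ i, ∃ c, (G i).IsWeightedHomogeneous (wts e) c) {lam : Fin 3 → Fin (n + 1) → K}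
    (p : Fin (n + 1) ⊕ W → Polynomial (MvPolynomial (Fin 3) K)) (hpm : ∀ v, (p v).Monic)
    (hpG : ∀ v, (p v).eval₂ (aeval fun i => ∑ j, C (lam i j) * X (Sum.inl j) :
      MvPolynomial (Fin 3) K →ₐ[K] MvPolynomial (Fin (n + 1) ⊕ W) K).toRingHom (X v) ∈
        Ideal.span (Set.range G))
    (z : Fin (n + 1) ⊕ W → L) (hz : ∀ i, aeval z (G i) = 0) {c0 : Fin (n + 1)}
    (hc0 : z (Sum.inl c0) = 1) (hnc : ∃ v, z v ∉ Set.range (algebraMap K L))
    (htop : adjoin K (Set.range z) = ⊤) {ψ : MvPolynomial (Fin 3) K} {δ : ℕ}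
    (hψ : ψ.IsHomogeneous δ) (hψ0 : ψ ≠ 0) (hψz : aeval (toPlane lam z) ψ = 0) :
    pht K (fun j => z (Sum.inl j)) ≤ 3 * (δ * ∏ v, ((p v).natDegree : ℤ)) := by
  classical
  have hfp : FinitePlane lam G := fun v => ⟨p v, hpm v, hpG v⟩
  have hY := toPlane_ne hfp z hz hnc
  have hYe := Function.ne_iff.1 hY
  obtain ⟨c, hc⟩ : ∃ c, toPlane lam z c ≠ 0 := hYe
  obtain ⟨t, ht⟩ : ∃ t, t = toPlane lam z c := ⟨_, rfl⟩
  have ht0 : t ≠ 0 := by rw [ht]; exact hc
  obtain ⟨z', hz'⟩ : ∃ z' : Fin (n + 1) ⊕ W → L, ∀ s, z' s = t⁻¹ ^ wts e s * z s := ⟨_, fun _ => rfl⟩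
  have hzz : ∀ s, z s = t ^ wts e s * z' s := by
    intro s
    rw [hz', ← mul_assoc, ← mul_pow, mul_inv_cancel₀ ht0, one_pow, one_mul]
  have hz0 := scale_point hGh hz' hz
  obtain ⟨y, hy⟩ : ∃ y, y = toPlane lam z' := ⟨_, rfl⟩
  have hyt : ∀ i, y i = t⁻¹ * toPlane lam z i := by
    intro i
    rw [hy]
    exact toPlane_scale lam hz' i
  have hyc : y c = 1 := by rw [hyt, ← ht, inv_mul_cancel₀ ht0]
  have hψy : aeval y ψ = 0 := by
    have h1 := Pool.Agent.N617.RC.eval_scale (algebraMap K L) 1 δ ψ hψ t⁻¹ y (toPlane lam z)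
      (fun a => by rw [Pi.one_apply, pow_one, hyt])
    have h2 : aeval (toPlane lam z) ψ = eval₂ (algebraMap K L) (toPlane lam z) ψ := rfl
    rw [← h2, hψz, mul_zero] at h1
    exact h1
  have hx0 : z (Sum.inl c0) ≠ 0 := by rw [hc0]; exact one_ne_zero
  -- the degree of the point of the plane
  have h1 : pht K (fun j => z (Sum.inl j)) ≤ pht K (toPlane lam z) := by
    unfold pht
    rw [neg_le_neg_iff]
    refine finsum_le_finsum' (pord_finite ⟨c, hc⟩)
      (pord_finite (f := fun j => z (Sum.inl j)) ⟨c0, hx0⟩) fun P => ?_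
    obtain ⟨j, hj, hjo⟩ := exists_pord P (f := fun j => z (Sum.inl j)) ⟨c0, hx0⟩
    change pord P (toPlane lam z) ≤ pord P fun j => z (Sum.inl j)
    rw [← hjo]
    have h2 := ge_plane hGh hfp z hz hY P (Sum.inl j)
    have h3 := h2.resolve_left hj
    simpa only [wts, Sum.elim_inl, Nat.cast_one, one_mul] using h3
  have h2 : pht K (toPlane lam z) = pht K y := by
    have h3 := pht_scale (k := K) (f := toPlane lam z) ⟨c, hc⟩ (inv_ne_zero ht0)
    rw [← h3]
    congr 1
    funext i
    exact (hyt i).symm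
  rw [h2] at h1
  refine h1.trans ((pht_le_sum hyc).trans ?_)
  have h3 : ∀ i, hgt K (y i) ≤ δ * ∏ v, ((p v).natDegree : ℤ) := by
    intro i
    by_cases halg : IsAlgebraic K (y i)
    · rw [hgt_algebraic halg]
      positivity
    have htr : Transcendental K (y i) := halg
    have hci : c ≠ i := by
      intro h
      rw [← h, hyc] at halg
      exact halg isAlgebraic_one
    obtain ⟨j, hcj, hij⟩ : ∃ j, c ≠ j ∧ i ≠ j := by
      have : ∀ c i : Fin 3, ∃ j, c ≠ j ∧ i ≠ j := by decide
      exact this c i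
    obtain ⟨g, hg0, hgd, hgy⟩ := exists_poly hψ hψ0 hψy hci hcj hij hyc htr
    rw [hgt_eq_finrank htr]
    have hint : IsIntegral K⟮y i⟯ (y j) := by
      rw [← isAlgebraic_iff_isIntegral]
      exact ⟨g, hg0, hgy⟩
    have h4 : Module.finrank K⟮y i⟯ K⟮y i⟯⟮y j⟯ ≤ δ := by
      rw [adjoin.finrank hint]
      exact (Polynomial.natDegree_le_of_dvd (minpoly.dvd _ _ hgy) hg0).trans hgd
    have hmem : ∀ l, ∃ r : K⟮y i⟯⟮y j⟯, algebraMap K⟮y i⟯⟮y j⟯ L r = y l := by
      intro l
      have h11 : l = c ∨ l = i ∨ l = j := by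
        have : ∀ c i j l : Fin 3, c ≠ i → c ≠ j → i ≠ j → l = c ∨ l = i ∨ l = j := by decide
        exact this c i j l hci hcj hij
      rcases h11 with rfl | rfl | rfl
      · exact ⟨1, by rw [map_one, hyc]⟩
      · refine ⟨algebraMap K⟮y l⟯ _ (AdjoinSimple.gen K (y l)), ?_⟩
        rw [← IsScalarTower.algebraMap_apply, AdjoinSimple.algebraMap_gen]
      · exact ⟨AdjoinSimple.gen _ (y l), AdjoinSimple.algebraMap_gen _ _⟩
    choose r hr using hmem
    have hst : IsScalarTower K K⟮y i⟯⟮y j⟯ L := IsScalarTower.of_algebraMap_eq fun a => rfl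
    have h5 : Module.finrank K⟮y i⟯⟮y j⟯ L ≤ ∏ v, (p v).natDegree := by
      have h6 := finrank_le_prod (F := K⟮y i⟯⟮y j⟯) z' (fun v =>
        (p v).map (aeval r : MvPolynomial (Fin 3) K →ₐ[K] K⟮y i⟯⟮y j⟯).toRingHom)
        (fun v => ((hpm v).map _).ne_zero) (fun v => by
          have h7 := plane_point lam (p v) (hpG v) hz0
          rw [← hy] at h7
          rw [Polynomial.aeval_def, Polynomial.eval₂_map]
          rw [Polynomial.eval_map] at h7
          have h8 : (algebraMap K⟮y i⟯⟮y j⟯ L).comp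
              (aeval r : MvPolynomial (Fin 3) K →ₐ[K] K⟮y i⟯⟮y j⟯).toRingHom =
              (aeval y : MvPolynomial (Fin 3) K →ₐ[K] L).toRingHom := by
            apply MvPolynomial.ringHom_ext
            · intro a
              simp only [RingHom.coe_comp, Function.comp_apply, AlgHom.toRingHom_eq_coe,
                RingHom.coe_coe, aeval_C]
              rw [← IsScalarTower.algebraMap_apply]
            · intro l
              simp only [RingHom.coe_comp, Function.comp_apply, AlgHom.toRingHom_eq_coe,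
                RingHom.coe_coe, aeval_X]
              exact hr l
          rw [h8]
          exact h7) (by
          rw [eq_top_iff]
          intro a _
          have h9 : ∀ v, z' v ∈ adjoin K⟮y i⟯⟮y j⟯ (Set.range z') := fun v =>
            subset_adjoin _ _ ⟨v, rfl⟩
          have h10 : t ∈ adjoin K⟮y i⟯⟮y j⟯ (Set.range z') := by
            have h12 := hz' (Sum.inl c0)
            rw [hc0, mul_one] at h12
            simp only [wts, Sum.elim_inl, pow_one] at h12
            have h13 := h9 (Sum.inl c0)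
            rw [h12] at h13
            have h14 := inv_mem h13
            rwa [inv_inv] at h14
          have h12 : adjoin K (Set.range z) ≤
              (adjoin K⟮y i⟯⟮y j⟯ (Set.range z')).restrictScalars K := by
            rw [adjoin_le_iff]
            rintro _ ⟨v, rfl⟩
            change z v ∈ adjoin K⟮y i⟯⟮y j⟯ (Set.range z')
            rw [hzz]
            exact mul_mem (pow_mem h10 _) (h9 v)
          rw [htop] at h12
          exact h12 (mem_top (x := a)))
      refine h6.trans (le_of_eq (Finset.prod_congr rfl fun v _ => ?_))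
      exact (hpm v).natDegree_map _
    have h6 := Module.finrank_mul_finrank K⟮y i⟯ K⟮y i⟯⟮y j⟯ L
    rw [← h6]
    have h7 := Nat.mul_le_mul h4 h5
    have h8 : ((Module.finrank K⟮y i⟯ K⟮y i⟯⟮y j⟯ * Module.finrank K⟮y i⟯⟮y j⟯ L : ℕ) : ℤ) ≤
        ((δ * ∏ v, (p v).natDegree : ℕ) : ℤ) := by exact_mod_cast h7
    rw [Nat.cast_mul δ, Nat.cast_prod] at h8
    exact h8
  have h4 : ∑ i : Fin 3, hgt K (y i) ≤ ∑ _i : Fin 3, (δ * ∏ v, ((p v).natDegree : ℤ)) :=
    Finset.sum_le_sum fun i _ => h3 i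
  rw [Finset.sum_const, Finset.card_univ, Fintype.card_fin, nsmul_eq_mul] at h4
  exact_mod_cast h4

end Pool.Agent.U492.VB
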