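import Pool.Agent.U492.VB.Defs
import Pool.Agent.N126.RC.CanB

/-!
Curves on blow-ups at finite sets of points: the degree of the exceptional divisor.
-/

set_option autoImplicit false

open MvPolynomial FF Pool.Agent.W603.LV Pool.Agent.W603.PV

namespace Pool.Agent.U492.VB

open Pool.Agent.N126.RC

section

variable {K L : Type} [Field K] [Field L] [Algebra K L]

/-- Values of a polynomial at two points which are close at a place. -/
theorem ge_close {σ : Type} (P : Place K L) {N : ℤ} (hN : 0 ≤ N) {a b : σ → L}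
    (ha : ∀ s, Ge P 0 (a s)) (hb : ∀ s, Ge P N (b s)) (ψ : MvPolynomial σ K) :
    Ge P 0 (aeval a ψ) ∧ Ge P N (aeval (fun s => a s + b s) ψ - aeval a ψ) := by
  induction ψ using MvPolynomial.induction_on with
  | C r =>
    refine ⟨?_, ?_⟩
    · rw [aeval_C]; exact Ge.const r
    · rw [aeval_C, aeval_C, sub_self]; exact Ge.zero
  | add f g hf hg =>
    refine ⟨?_, ?_⟩
    · rw [map_add]; exact hf.1.add hg.1
    · have h := hf.2.add hg.2
      rw [map_add, map_add]
      have h2 : aeval (fun s => a s + b s) f + aeval (fun s => a s + b s) g -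
          (aeval a f + aeval a g) = aeval (fun s => a s + b s) f - aeval a f +
          (aeval (fun s => a s + b s) g - aeval a g) := by ring
      rw [h2]
      exact h
  | mul_X f i hf =>
    refine ⟨?_, ?_⟩
    · rw [map_mul, aeval_X]
      have := hf.1.mul (ha i)
      rwa [add_zero] at this
    · rw [map_mul, aeval_X, map_mul, aeval_X]
      have h2 : aeval (fun s => a s + b s) f * (a i + b i) - aeval a f * a i =
          (aeval (fun s => a s + b s) f - aeval a f) * (a i + b i) + aeval a f * b i := by ring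
      rw [h2]
      have h3 := hf.2.mul ((ha i).add ((hb i).mono hN))
      have h4 := hf.1.mul (hb i)
      rw [add_zero] at h3
      rw [zero_add] at h4
      exact h3.add h4

variable {n : ℕ} {W ι : Type} {e : W → ℕ}

/-- Scaled coordinates at a place. -/
theorem exists_scaledW {z : Fin (n + 1) ⊕ W → L} (hx : (fun j => z (Sum.inl j)) ≠ 0) (P : Place K L)
    (hge : ∀ s, Ge P (wts e s * pord P fun j => z (Sum.inl j)) (z s)) :
    ∃ (t : L) (z' : Fin (n + 1) ⊕ W → L), t ≠ 0 ∧ P.ord t = (pord P fun j => z (Sum.inl j)) ∧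
      (∀ s, z s = t ^ wts e s * z' s) ∧ (∀ s, Ge P 0 (z' s)) ∧ ∃ j, z' (Sum.inl j) = 1 := by
  obtain ⟨j0, hj0, hj0'⟩ := exists_pord P (Function.ne_iff.1 hx)
  obtain ⟨t, ht⟩ : ∃ t, t = z (Sum.inl j0) := ⟨_, rfl⟩
  have ht0 : t ≠ 0 := by rw [ht]; exact hj0
  have hto : P.ord t = pord P fun j => z (Sum.inl j) := by rw [ht]; exact hj0'
  obtain ⟨z', hz'⟩ : ∃ z' : Fin (n + 1) ⊕ W → L, ∀ s, z' s = t⁻¹ ^ wts e s * z s := ⟨_, fun _ => rfl⟩
  have hzz : ∀ s, z s = t ^ wts e s * z' s := by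
    intro s
    rw [hz', ← mul_assoc, ← mul_pow, mul_inv_cancel₀ ht0, one_pow, one_mul]
  refine ⟨t, z', ht0, hto, hzz, fun s => ?_, j0, ?_⟩
  · refine Ge.of_mul' (h := t ^ wts e s) (m := wts e s * P.ord t) (pow_ne_zero _ ht0)
      (P.ord_pow _ _) ?_
    rw [← hzz, zero_add, hto]
    exact hge s
  · rw [hz', ← ht]
    simp only [wts, Sum.elim_inl, pow_one]
    exact inv_mul_cancel₀ ht0

/-- The values at the scaled coordinates of the equations of a point. -/
theorem ge_loc {z z' : Fin (n + 1) ⊕ W → L} {t : L} (ht0 : t ≠ 0) {P : Place K L}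
    (ht : P.ord t = (pord P fun j => z (Sum.inl j))) (hzz : ∀ s, z s = t ^ wts e s * z' s)
    [Finite W] (p : Fin (n + 1) ⊕ W → K) (c : Fin (n + 1)) (s : Fin (n + 1) ⊕ W) :
    Ge P (pointOrd e z p P) (algebraMap K L (p (Sum.inl c)) ^ wts e s * z' s -
      algebraMap K L (p s) * z' (Sum.inl c) ^ wts e s) := by
  have h1 : loc e z p (c, s) = t ^ wts e s * (algebraMap K L (p (Sum.inl c)) ^ wts e s * z' s -
      algebraMap K L (p s) * z' (Sum.inl c) ^ wts e s) := by
    have h2 : z (Sum.inl c) = t * z' (Sum.inl c) := by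
      have := hzz (Sum.inl c)
      simpa only [wts, Sum.elim_inl, pow_one] using this
    change algebraMap K L (p (Sum.inl c)) ^ wts e s * z s -
      algebraMap K L (p s) * z (Sum.inl c) ^ wts e s = _
    rw [hzz s, h2, mul_pow]
    ring
  refine Ge.of_mul' (h := t ^ wts e s) (m := wts e s * P.ord t) (pow_ne_zero _ ht0)
      (P.ord_pow _ _) ?_
  rw [← h1]
  by_cases h0 : loc e z p (c, s) = 0
  · exact Or.inl h0
  · right
    have h3 : pointOrd e z p P ≤
        P.ord (loc e z p (c, s)) - wts e s * pord P fun j => z (Sum.inl j) :=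
      ciInf_le (Finite.bddBelow_range _) (⟨(c, s), h0⟩ : {v // loc e z p v ≠ 0})
    rw [ht]
    linarith

/-- The order at a place of a weighted homogeneous polynomial which vanishes at a point. -/
theorem local_le [Finite W] {z : Fin (n + 1) ⊕ W → L} (hx : (fun j => z (Sum.inl j)) ≠ 0)
    (P : Place K L) (hge : ∀ s, Ge P (wts e s * pord P fun j => z (Sum.inl j)) (z s))
    {ψ : MvPolynomial (Fin (n + 1) ⊕ W) K} {δ : ℕ} (hψ : ψ.IsWeightedHomogeneous (wts e) δ)
    (hψz : aeval z ψ ≠ 0) :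
    0 ≤ P.ord (aeval z ψ) - δ * (pord P fun j => z (Sum.inl j)) ∧
    ∀ p : Fin (n + 1) ⊕ W → K, (∃ c, p (Sum.inl c) ≠ 0) → eval p ψ = 0 →
      pointOrd e z p P ≤ P.ord (aeval z ψ) - δ * (pord P fun j => z (Sum.inl j)) := by
  obtain ⟨t, z', ht0, ht, hzz, hz', j0, hj0⟩ := exists_scaledW hx P hge
  have h1 : aeval z ψ = t ^ δ * aeval z' ψ :=
    Pool.Agent.N617.RC.eval_scale (algebraMap K L) (wts e) δ ψ hψ t z z' hzz
  have h2 : aeval z' ψ ≠ 0 := by
    intro h
    rw [h, mul_zero] at h1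
    exact hψz h1
  have h3 : P.ord (aeval z ψ) - δ * (pord P fun j => z (Sum.inl j)) = P.ord (aeval z' ψ) := by
    rw [h1, P.ord_mul (pow_ne_zero _ ht0) h2, P.ord_pow, ht]
    ring
  rw [h3]
  have h4 : 0 ≤ P.ord (aeval z' ψ) :=
    (ge_close P le_rfl hz' (fun _ => Ge.zero) ψ (b := fun _ => 0)).1.resolve_left h2
  refine ⟨h4, ?_⟩
  rintro p ⟨c, hc⟩ hp
  rcases le_or_gt (pointOrd e z p P) 0 with h0 | h0
  · exact h0.trans h4
  obtain ⟨a, ha⟩ : ∃ a : Fin (n + 1) ⊕ W → L, ∀ s, a s = z' (Sum.inl c) ^ wts e s *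
    algebraMap K L (p s) := ⟨_, fun _ => rfl⟩
  obtain ⟨b, hb⟩ : ∃ b : Fin (n + 1) ⊕ W → L, ∀ s, b s = algebraMap K L (p (Sum.inl c)) ^ wts e s *
    z' s - algebraMap K L (p s) * z' (Sum.inl c) ^ wts e s := ⟨_, fun _ => rfl⟩
  have ha0 : ∀ s, Ge P 0 (a s) := by
    intro s
    rw [ha]
    have h5 := ((hz' (Sum.inl c)).pow (wts e s)).mul (Ge.const (P := P) (p s))
    rw [mul_zero, zero_add] at h5
    exact h5
  have hbN : ∀ s, Ge P (pointOrd e z p P) (b s) := by
    intro s
    rw [hb]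
    exact ge_loc ht0 ht hzz p c s
  have h5 := (ge_close P h0.le ha0 hbN ψ).2
  have h6 : aeval a ψ = 0 := by
    have h7 := Pool.Agent.N617.RC.eval_scale (algebraMap K L) (wts e) δ ψ hψ (z' (Sum.inl c)) a
      (fun s => algebraMap K L (p s)) ha
    have h8 : eval₂ (algebraMap K L) (fun s => algebraMap K L (p s)) ψ =
        algebraMap K L (eval p ψ) := by
      have h9 := MvPolynomial.aeval_algebraMap_apply (R := K) (A := K) L p ψ
      rw [aeval_eq_eval] at h9
      exact h9
    rw [h8, hp, map_zero, mul_zero] at h7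
    exact h7
  have h9 : aeval (fun s => a s + b s) ψ = algebraMap K L (p (Sum.inl c)) ^ δ * aeval z' ψ := by
    refine Pool.Agent.N617.RC.eval_scale (algebraMap K L) (wts e) δ ψ hψ
      (algebraMap K L (p (Sum.inl c))) _ z' (fun s => ?_)
    rw [ha, hb]
    ring
  rw [h6, sub_zero, h9] at h5
  have hc0 : algebraMap K L (p (Sum.inl c)) ≠ 0 := by
    rw [Ne, map_eq_zero]; exact hc
  have h10 := h5.resolve_left (mul_ne_zero (pow_ne_zero _ hc0) h2)
  rw [P.ord_mul (pow_ne_zero _ hc0) h2, P.ord_pow] at h10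
  have h11 : P.ord (algebraMap K L (p (Sum.inl c))) = 0 := P.ord_const hc
  rw [h11, mul_zero, zero_add] at h10
  exact h10

/-- At each place at most one of several different points has a positive order. -/
theorem same_point [Finite W] {z : Fin (n + 1) ⊕ W → L} (hx : (fun j => z (Sum.inl j)) ≠ 0)
    (P : Place K L) (hge : ∀ s, Ge P (wts e s * pord P fun j => z (Sum.inl j)) (z s))
    {p p' : Fin (n + 1) ⊕ W → K} (hp : ∃ c, p (Sum.inl c) ≠ 0) (hp' : ∃ c, p' (Sum.inl c) ≠ 0)
    (h : 0 < pointOrd e z p P) (h' : 0 < pointOrd e z p' P) :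
    ∃ t : K, ∀ v, p' v = t ^ wts e v * p v := by
  obtain ⟨t, z', ht0, ht, hzz, hz', j0, hj0⟩ := exists_scaledW hx P hge
  have key : ∀ p : Fin (n + 1) ⊕ W → K, (∃ c, p (Sum.inl c) ≠ 0) → 0 < pointOrd e z p P →
      p (Sum.inl j0) ≠ 0 ∧ ∀ s, Ge P 1 (algebraMap K L (p (Sum.inl j0)) ^ wts e s * z' s -
        algebraMap K L (p s)) := by
    rintro p ⟨c, hc⟩ h
    constructor
    · intro h0
      have h1 := (ge_loc ht0 ht hzz p c (Sum.inl j0)).mono (by omega : (1 : ℤ) ≤ _)
      simp only [wts, Sum.elim_inl, pow_one] at h1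
      rw [h0, hj0, mul_one, map_zero, zero_mul, sub_zero] at h1
      have hc0 : algebraMap K L (p (Sum.inl c)) ≠ 0 := by
        rw [Ne, map_eq_zero]; exact hc
      have h2 := h1.resolve_left hc0
      rw [P.ord_const hc] at h2
      omega
    · intro s
      have h1 := (ge_loc ht0 ht hzz p j0 s).mono (by omega : (1 : ℤ) ≤ _)
      rw [hj0, one_pow, mul_one] at h1
      exact h1
  obtain ⟨h1, h2⟩ := key p hp h
  obtain ⟨h3, h4⟩ := key p' hp' h'
  refine ⟨p' (Sum.inl j0) / p (Sum.inl j0), fun s => ?_⟩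
  have h5 := (((Ge.const (P := P) (p (Sum.inl j0))).pow (wts e s)).mul (h4 s)).sub
    (((Ge.const (P := P) (p' (Sum.inl j0))).pow (wts e s)).mul (h2 s))
  rw [mul_zero, zero_add] at h5
  have h6 : algebraMap K L (p (Sum.inl j0)) ^ wts e s *
      (algebraMap K L (p' (Sum.inl j0)) ^ wts e s * z' s - algebraMap K L (p' s)) -
      algebraMap K L (p' (Sum.inl j0)) ^ wts e s *
      (algebraMap K L (p (Sum.inl j0)) ^ wts e s * z' s - algebraMap K L (p s)) =
      algebraMap K L (p' (Sum.inl j0) ^ wts e s * p s - p (Sum.inl j0) ^ wts e s * p' s) := by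
    simp only [map_sub, map_mul, map_pow]
    ring
  rw [h6] at h5
  have h7 : p' (Sum.inl j0) ^ wts e s * p s - p (Sum.inl j0) ^ wts e s * p' s = 0 := by
    by_contra hcon
    have hc0 : algebraMap K L (p' (Sum.inl j0) ^ wts e s * p s -
        p (Sum.inl j0) ^ wts e s * p' s) ≠ 0 := by
      rw [Ne, map_eq_zero]; exact hcon
    have h8 := h5.resolve_left hc0
    rw [P.ord_const hcon] at h8
    omega
  rw [div_pow, div_mul_eq_mul_div, eq_div_iff (pow_ne_zero _ h1)]
  linear_combination -h7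

/-- The orders at a place of several different points. -/
theorem local_sum [Finite W] {z : Fin (n + 1) ⊕ W → L} (hx : (fun j => z (Sum.inl j)) ≠ 0)
    (P : Place K L) (hge : ∀ s, Ge P (wts e s * pord P fun j => z (Sum.inl j)) (z s))
    {ψ : MvPolynomial (Fin (n + 1) ⊕ W) K} {δ : ℕ} (hψ : ψ.IsWeightedHomogeneous (wts e) δ)
    (hψz : aeval z ψ ≠ 0) {S : Finset (Fin (n + 1) ⊕ W → K)}
    (hS : ∀ p ∈ S, ∃ c, p (Sum.inl c) ≠ 0)
    (hS' : ∀ p ∈ S, ∀ p' ∈ S, (∃ t : K, ∀ v, p' v = t ^ wts e v * p v) → p = p')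
    (hψS : ∀ p ∈ S, eval p ψ = 0) :
    ∑ p ∈ S, pointOrd e z p P ≤ P.ord (aeval z ψ) - δ * (pord P fun j => z (Sum.inl j)) := by
  classical
  obtain ⟨h0, h1⟩ := local_le hx P hge hψ hψz
  by_cases hpos : ∃ p ∈ S, 0 < pointOrd e z p P
  · obtain ⟨p, hp, hpP⟩ := hpos
    rw [← Finset.add_sum_erase S _ hp]
    have h2 : ∑ p' ∈ S.erase p, pointOrd e z p' P ≤ 0 := by
      refine Finset.sum_nonpos fun p' hp' => ?_
      by_contra hcon
      have h3 := hS' p hp p' (Finset.mem_of_mem_erase hp')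
        (same_point hx P hge (hS p hp) (hS p' (Finset.mem_of_mem_erase hp')) hpP (by omega))
      exact Finset.ne_of_mem_erase hp' h3.symm
    have h3 := h1 p (hS p hp) (hψS p hp)
    linarith
  · push Not at hpos
    exact (Finset.sum_nonpos fun p hp => hpos p hp).trans h0

theorem finite_pointOrd [Finite W] [CharZero K] [IsFF K L] {z : Fin (n + 1) ⊕ W → L}
    (hx : (fun j => z (Sum.inl j)) ≠ 0) (p : Fin (n + 1) ⊕ W → K) :
    (Function.support fun P : Place K L => pointOrd e z p P).Finite := by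
  classical
  have := Fintype.ofFinite W
  obtain ⟨T1, hT1⟩ := exists_supp (k := K)
    (Finset.univ : Finset (Fin (n + 1) × (Fin (n + 1) ⊕ W))) (loc e z p)
  refine ((Finset.finite_toSet T1).union (pord_finite (k := K) (Function.ne_iff.1 hx))).subset ?_
  intro P hP
  by_contra hcon
  rw [Set.mem_union, not_or] at hcon
  have h1 : (pord P fun j => z (Sum.inl j)) = 0 := not_not.1 hcon.2
  have h2 : ∀ v, P.ord (loc e z p v) = 0 := by
    intro v
    by_contra h
    exact hcon.1 (hT1 v (Finset.mem_univ _) P h)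
  apply hP
  change pointOrd e z p P = 0
  unfold pointOrd
  rw [h1]
  simp only [h2, mul_zero, sub_zero]
  rcases isEmpty_or_nonempty {v // loc e z p v ≠ 0} with h | h
  · rw [iInf_of_isEmpty, Int.csInf_empty]
  · exact ciInf_const

/-- **The degree of the exceptional divisor**. -/
theorem excDeg_le [IsAlgClosed K] [CharZero K] [IsFF K L] [Finite W] {z : Fin (n + 1) ⊕ W → L}
    (hx : (fun j => z (Sum.inl j)) ≠ 0)
    (hge : ∀ (P : Place K L) s, Ge P (wts e s * pord P fun j => z (Sum.inl j)) (z s))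
    {ψ : MvPolynomial (Fin (n + 1) ⊕ W) K} {δ : ℕ} (hψ : ψ.IsWeightedHomogeneous (wts e) δ)
    (hψz : aeval z ψ ≠ 0) {S : Finset (Fin (n + 1) ⊕ W → K)}
    (hS : ∀ p ∈ S, ∃ c, p (Sum.inl c) ≠ 0)
    (hS' : ∀ p ∈ S, ∀ p' ∈ S, (∃ t : K, ∀ v, p' v = t ^ wts e v * p v) → p = p')
    (hψS : ∀ p ∈ S, eval p ψ = 0) : excDeg K e S z ≤ δ * pht K fun j => z (Sum.inl j) := by
  classical
  have hfs : (Function.support fun P : Place K L => (δ : ℤ) * pord P fun j => z (Sum.inl j)).Finite := by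
    refine (pord_finite (k := K) (Function.ne_iff.1 hx)).subset fun P hP => ?_
    rw [Function.mem_support] at hP ⊢
    exact fun h => hP (by rw [h, mul_zero])
  have h1 : excDeg K e S z = ∑ᶠ P : Place K L, ∑ p ∈ S, pointOrd e z p P := by
    unfold excDeg
    rw [finsum_sum_comm S _ fun p _ => finite_pointOrd hx p]
  have h2 : ∑ᶠ P : Place K L, (P.ord (aeval z ψ) - δ * pord P fun j => z (Sum.inl j)) =
      δ * pht K fun j => z (Sum.inl j) := by
    rw [finsum_sub_distrib (finite_support _) hfs, sum_ord, ← mul_finsum]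
    unfold pht
    ring
  rw [h1, ← h2]
  refine finsum_le_finsum' ?_ ?_ fun P => ?_
  · refine (Set.Finite.biUnion S.finite_toSet fun p _ =>
      finite_pointOrd (K := K) (e := e) hx p).subset fun P hP => ?_
    rw [Function.mem_support] at hP
    obtain ⟨p, hp, h⟩ := Finset.exists_ne_zero_of_sum_ne_zero hP
    exact Set.mem_biUnion (Finset.mem_coe.2 hp) h
  · refine ((finite_support (k := K) (aeval z ψ)).union hfs).subset fun P hP => ?_
    by_contra hcon
    rw [Set.mem_union, not_or] at hcon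
    have h2 : P.ord (aeval z ψ) = 0 := not_not.1 hcon.1
    have h3 : ((δ : ℤ) * pord P fun j => z (Sum.inl j)) = 0 := not_not.1 hcon.2
    exact hP (by
      change P.ord (aeval z ψ) - ((δ : ℤ) * pord P fun j => z (Sum.inl j)) = 0
      rw [h2, h3, sub_zero])
  · exact local_sum hx P (hge P) hψ hψz hS hS' hψS

end

end Pool.Agent.U492.VB
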