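import Pool.Agent.U492.VB.Final
import Pool.Agent.TH145.GC.Main

/-!
Cyclic coverings of the plane.
-/

set_option autoImplicit false

open MvPolynomial FF Pool.Agent.W603.LV Pool.Agent.W603.PV
open Pool.Agent.TH145.MG (DimLE)

namespace Pool.Agent.U492.VB

open Pool.Agent.N126.RC

theorem canonicalBound_sum {K : Type} [Field K] [IsAlgClosed K] [CharZero K] {n : ℕ}
    {W ι : Type} [Fintype W] [Fintype ι] (e : W → ℕ) (G : ι → MvPolynomial (Fin (n + 1) ⊕ W) K)
    (c : ι → ℕ) (hG : ∀ i, (G i).IsWeightedHomogeneous (wts e) (c i)) (hfin : FiniteOver G)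
    (w : ℕ) : CanonicalBound e G w (∑ i, (c i : ℚ) - ∑ s : Fin (n + 1) ⊕ W, (wts e s : ℚ)) := by
  classical
  intro L _ _ _ z c0 hz1 hz _ u hu
  obtain ⟨r, a, ha, -, h1⟩ := canX_le hG hfin z hz (ne_zero_of_one hz1) u hu
  have h2 : (0 : ℤ) ≤ pht K fun j => z (Sum.inl j) := pht_nonneg' (c := c0) hz1
  have h3 : ∑ i, c (a i) ≤ ∑ i, c i := by
    rw [← Finset.sum_image (s := Finset.univ) (g := a) (f := c) fun i _ j _ h => ha h]
    exact Finset.sum_le_sum_of_subset (Finset.subset_univ _)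
  have h4 : (∑ i, (c (a i) : ℤ) - ∑ s : Fin (n + 1) ⊕ W, (wts e s : ℤ)) ≤
      (∑ i, (c i : ℤ) - ∑ s : Fin (n + 1) ⊕ W, (wts e s : ℤ)) := by
    have h6 : ∑ i, (c (a i) : ℤ) ≤ ∑ i, (c i : ℤ) := by exact_mod_cast h3
    linarith
  have h5 := h1.trans (mul_le_mul_of_nonneg_right h4 h2)
  exact_mod_cast h5

/-- The equation `u ^ q = F` of the cyclic covering of the plane branched over `F = 0`. -/
noncomputable def cyc {K : Type} [Field K] (q : ℕ) (F : MvPolynomial (Fin 3) K) :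
    Unit → MvPolynomial (Fin (2 + 1) ⊕ Unit) K :=
  fun _ => X (Sum.inr ()) ^ q - rename Sum.inl F

/-- The identity of the plane. -/
def idPlane (K : Type) [Field K] : Fin 3 → Fin (2 + 1) → K := fun i j => if i = j then 1 else 0

variable {k K : Type} [Field k] [Field K] [IsAlgClosed K] [CharZero K] [Algebra k K]

omit [IsAlgClosed K] [CharZero K] in
theorem toX (j : Fin 3) : (∑ l, C (idPlane K j l) * X (Sum.inl l) :
    MvPolynomial (Fin (2 + 1) ⊕ Unit) K) = X (Sum.inl j) := by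
  rw [Finset.sum_eq_single j]
  · simp [idPlane]
  · intro b _ hb
    simp [idPlane, hb.symm]
  · intro h
    exact absurd (Finset.mem_univ j) h

omit [IsAlgClosed K] [CharZero K] in
theorem toX_hom : (aeval fun i => ∑ j, C (idPlane K i j) * X (Sum.inl j) :
    MvPolynomial (Fin 3) K →ₐ[K] MvPolynomial (Fin (2 + 1) ⊕ Unit) K) = rename Sum.inl := by
  apply MvPolynomial.algHom_ext
  intro j
  rw [aeval_X, rename_X]
  exact toX j

/-- **Cyclic coverings of the plane.** -/
theorem cyclic_covers (q c : ℕ) (hq : 2 ≤ q) (hc : 5 ≤ (q - 1) * c) (F : MvPolynomial (Fin 3) K)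
    (hF : Generic (n := 2) k (fun _ : Unit => q * c) (fun _ : Unit => F))
    (S : Finset (Fin (2 + 1) ⊕ Unit → K)) (hS : PointSet (fun _ : Unit => c) (cyc q F) S)
    (Y : Finset (Fin 3 → K)) (hY : PlaneImage (idPlane K) S Y)
    (hYc : Y.card ≤ ((q - 1) * c - 5) ^ 2) :
    CurveInequality (fun _ : Unit => c) (cyc q F) S 2 2 := by
  classical
  have hFh : F.IsHomogeneous (q * c) := hF.1 ()
  have hG : ∀ i : Unit, (cyc q F i).IsWeightedHomogeneous (wts fun _ : Unit => c) (q * c) := by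
    intro i
    refine IsWeightedHomogeneous.sub ?_ (wh_rename _ hFh)
    have := (isWeightedHomogeneous_X K (wts (n := 2) fun _ : Unit => c) (Sum.inr ())).pow q
    simpa [wts] using this
  have hfin : FiniteOver (cyc q F) := by
    intro w
    refine ⟨Polynomial.X ^ q - Polynomial.C F, Polynomial.monic_X_pow_sub_C F (by omega), ?_⟩
    rw [Polynomial.eval₂_sub, Polynomial.eval₂_X_pow, Polynomial.eval₂_C]
    exact Ideal.subset_span ⟨(), rfl⟩
  have hfp : FinitePlane (idPlane K) (cyc q F) := by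
    rintro (j | w)
    · refine ⟨Polynomial.X - Polynomial.C (X j), Polynomial.monic_X_sub_C _, ?_⟩
      rw [toX_hom, Polynomial.eval₂_sub, Polynomial.eval₂_X, Polynomial.eval₂_C]
      simp
    · refine ⟨Polynomial.X ^ q - Polynomial.C F, Polynomial.monic_X_pow_sub_C F (by omega), ?_⟩
      rw [toX_hom, Polynomial.eval₂_sub, Polynomial.eval₂_X_pow, Polynomial.eval₂_C]
      exact Ideal.subset_span ⟨(), rfl⟩
  have hram : RamifiedOver (cyc q F) F q := by
    refine ⟨1, 0, fun _ => X (Sum.inr ()), fun i => ?_, fun z hz hF0 j => ?_⟩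
    · rw [pow_zero, one_mul]
      have h1 : (rename Sum.inl F : MvPolynomial (Fin (2 + 1) ⊕ Unit) K) =
          X (Sum.inr ()) ^ q + -(cyc q F ()) := by
        unfold cyc
        ring
      have h2 : (X (Sum.inr ()) : MvPolynomial (Fin (2 + 1) ⊕ Unit) K) ∈
          Ideal.span (Set.range fun _ : Fin 1 =>
            (X (Sum.inr ()) : MvPolynomial (Fin (2 + 1) ⊕ Unit) K)) :=
        Ideal.subset_span ⟨0, rfl⟩
      rw [h1]
      refine Submodule.add_mem_sup (Ideal.pow_mem_pow h2 q) ?_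
      exact neg_mem (Ideal.subset_span ⟨(), rfl⟩)
    · have h1 := hz ()
      unfold cyc at h1
      rw [map_sub, map_pow, hF0, sub_zero, eval_X] at h1
      rw [eval_X]
      exact pow_eq_zero_iff (by omega) |>.1 h1
  have hκ := canonicalBound_sum (fun _ : Unit => c) (cyc q F) (fun _ => q * c) hG hfin 2
  have hκ' : (∑ i : Unit, (((fun _ : Unit => q * c) i : ℕ) : ℚ) -
      ∑ s : Fin (2 + 1) ⊕ Unit, (wts (fun _ : Unit => c) s : ℚ)) = ((q - 1 : ℕ) : ℚ) * c - 3 := by
    rw [Fintype.sum_sum_type, Nat.cast_sub (by omega : 1 ≤ q)]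
    simp [wts]
    ring
  rw [hκ'] at hκ
  have hN : (5 : ℚ) ≤ ((q - 1 : ℕ) : ℚ) * c := by exact_mod_cast hc
  have hq0 : (q : ℚ) ≠ 0 := by
    have : q ≠ 0 := by omega
    exact_mod_cast this
  have hT : ∑ a ∈ (∅ : Finset Unit), (((fun _ : Unit => q * c) a : ℕ) + 1 : ℚ) +
      ∑ a ∈ (∅ : Finset Unit)ᶜ, (((fun _ : Unit => q * c) a : ℕ) : ℚ) * (1 - 1 / q) - 2 * (2 : ℕ) =
      ((q - 1 : ℕ) : ℚ) * c - 4 := by
    rw [Finset.sum_empty, Finset.compl_empty, Finset.univ_unique, Finset.sum_singleton,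
      Nat.cast_sub (by omega : 1 ≤ q)]
    push_cast
    field_simp
    ring
  refine curve_inequality (m := 2) (d := fun _ : Unit => q * c) (q := fun _ => q) ∅
    (fun f hf => absurd hf (Set.notMem_empty f)) (Pool.Agent.TH145.GC.dimLE_univ _ 2) (fun _ => F)
    hF ∅ (fun _ _ => by omega) ?_ (fun _ => c) (cyc q F) (fun i => ⟨_, hG i⟩) hfin ?_
    (fun _ _ => hram) (((q - 1 : ℕ) : ℚ) * c - 3) (by linarith) hκ hS (idPlane K) hfp Y hY 2 ?_ ?_
  · have h1 := hT
    linarith
  · intro z _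
    refine ⟨fun f hf => absurd hf (Set.notMem_empty f), fun a ha => absurd ha (Finset.notMem_empty a)⟩
  · rw [hT]
    linarith
  · rw [hT]
    have h1 : (Y.card : ℚ) ≤ ((((q - 1) * c - 5) ^ 2 : ℕ) : ℚ) := by exact_mod_cast hYc
    refine h1.trans (le_of_eq ?_)
    rw [Nat.cast_pow, Nat.cast_sub hc]
    push_cast
    ring

end Pool.Agent.U492.VB
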