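import Pool.Agent.N126.RC.CanDef

/-!
Curves on blow-ups at finite sets of points of closed subsets of weighted projective spaces:
definitions.
-/

set_option autoImplicit false

open MvPolynomial FF Pool.Agent.W603.LV Pool.Agent.W603.PV

namespace Pool.Agent.U492.VB

open Pool.Agent.N126.RC

variable {n : ℕ} {W ι : Type}

/-- The equations `p_c ^ e_v z_v = p_v z_c ^ e_v` of the point `p` of the weighted projective space,
where `c` is one of the coordinates `x` of weight `1` and `v` is any coordinate, of weight `e_v`: the
values at the point `z`. -/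
def loc {K L : Type} [Field K] [Field L] [Algebra K L] (e : W → ℕ) (z : Fin (n + 1) ⊕ W → L)
    (p : Fin (n + 1) ⊕ W → K) (v : Fin (n + 1) × (Fin (n + 1) ⊕ W)) : L :=
  algebraMap K L (p (Sum.inl v.1)) ^ wts e v.2 * z v.2 -
    algebraMap K L (p v.2) * z (Sum.inl v.1) ^ wts e v.2

/-- The order at the place `P` of the ideal of the point `p` on the curve given by the point `z`: the
multiplicity at `P` of the inverse image on the curve of the exceptional divisor over `p` of the
blow-up at `p`. (The order of an equation of weight `e_v` is taken relative to the `e_v`-th power of a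
coordinate `x_j` of the least order.) -/
noncomputable def pointOrd {K L : Type} [Field K] [Field L] [Algebra K L] (e : W → ℕ)
    (z : Fin (n + 1) ⊕ W → L) (p : Fin (n + 1) ⊕ W → K) (P : Place K L) : ℤ :=
  ⨅ v : {v // loc e z p v ≠ 0},
    (P.ord (loc e z p v.1) - wts e v.1.2 * pord P fun j => z (Sum.inl j))

/-- The degree of the exceptional divisor of the blow-up at the points `p` of the finite set `S` on the
lift to this blow-up of the curve given by the point `z`. -/
noncomputable def excDeg (K : Type) {L : Type} [Field K] [Field L] [Algebra K L] (e : W → ℕ)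
    (S : Finset (Fin (n + 1) ⊕ W → K)) (z : Fin (n + 1) ⊕ W → L) : ℤ :=
  ∑ p ∈ S, ∑ᶠ P : Place K L, pointOrd e z p P

/-- `S` is a set of different points of `M = {G = 0}`: they satisfy the equations, their coordinates
`x` are not all `0`, and no two of them differ only by a factor. -/
def PointSet {K : Type} [Field K] (e : W → ℕ) (G : ι → MvPolynomial (Fin (n + 1) ⊕ W) K)
    (S : Finset (Fin (n + 1) ⊕ W → K)) : Prop :=
  (∀ p ∈ S, (∀ i, eval p (G i) = 0) ∧ ∃ c, p (Sum.inl c) ≠ 0) ∧
    ∀ p ∈ S, ∀ p' ∈ S, (∃ t : K, ∀ v, p' v = t ^ wts e v * p v) → p = p'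

/-- The weighted homogeneous polynomials of degree `δ` which vanish at the points of `S` have only
finitely many common zeros on `M = {G = 0}`. -/
def FiniteBase {K : Type} [Field K] (e : W → ℕ) (G : ι → MvPolynomial (Fin (n + 1) ⊕ W) K)
    (S : Finset (Fin (n + 1) ⊕ W → K)) (δ : ℕ) : Prop :=
  ∃ T : Finset (Fin (n + 1) ⊕ W → K), ∀ y : Fin (n + 1) ⊕ W → K, y ≠ 0 →
    (∀ i, eval y (G i) = 0) →
    (∀ ψ : MvPolynomial (Fin (n + 1) ⊕ W) K, ψ.IsWeightedHomogeneous (wts e) δ →
      (∀ p ∈ S, eval p ψ = 0) → eval y ψ = 0) →
    ∃ τ ∈ T, ∃ t : K, ∀ v, y v = t ^ wts e v * τ v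

/-- The degree of the canonical divisor of the blow-up `X` of the smooth `w`-dimensional variety `M` at
the points of `S`, on the lift to `X` of the curve given by the point `z` of `M`: the canonical divisor
of `X` is the sum of the inverse image of the canonical divisor of `M` and of `w - 1` times the
exceptional divisor. -/
noncomputable def canBl (K : Type) {L : Type} [Field K] [Field L] [Algebra K L] (e : W → ℕ)
    (S : Finset (Fin (n + 1) ⊕ W → K)) (z : Fin (n + 1) ⊕ W → L) {w : ℕ}
    (u : Fin (w + 1) → Fin (n + 1) ⊕ W → L) : ℤ :=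
  canX K e z u + ((w : ℤ) - 1) * excDeg K e S z

/-- The inequality `K_X · C ≤ A (2 g - 2)` for all curves `C` on the blow-up `X` of `M = {G = 0}` at
the points of `S` which are not contained in the exceptional divisor: for the lifts to `X` of all
nonconstant maps to `M` from smooth projective curves, with function field `L` and genus `g`. -/
def BlowupGenusBound {K : Type} [Field K] [IsAlgClosed K] [CharZero K] [Fintype W] (e : W → ℕ)
    (G : ι → MvPolynomial (Fin (n + 1) ⊕ W) K) (S : Finset (Fin (n + 1) ⊕ W → K)) (w : ℕ)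
    (A : ℚ) : Prop :=
  ∀ (L : Type) [Field L] [Algebra K L] [IsFF K L] (z : Fin (n + 1) ⊕ W → L) (c : Fin (n + 1)),
    z (Sum.inl c) = 1 → (∀ i, aeval z (G i) = 0) → (∃ v, z v ∉ Set.range (algebraMap K L)) →
    ∀ u : Fin (w + 1) → Fin (n + 1) ⊕ W → L, TangentBasis G z u →
      canBl K e S z u ≤ A * canDeg K L

end Pool.Agent.U492.VB
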