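import Pool.Agent.U492.VB.Defs

/-!
Curves on blow-ups at finite sets of points, outside of the inverse image of a plane curve:
definitions.
-/

set_option autoImplicit false

open MvPolynomial FF Pool.Agent.W603.LV Pool.Agent.W603.PV

namespace Pool.Agent.U492.VB

open Pool.Agent.N126.RC

variable {n : ℕ} {W ι : Type}

/-- The linear projection `x ↦ (∑ j, lam i j * x_j)_i` to the plane. -/
def toPlane {K L : Type} [Field K] [Field L] [Algebra K L] (lam : Fin 3 → Fin (n + 1) → K)
    (z : Fin (n + 1) ⊕ W → L) : Fin 3 → L :=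
  fun i => ∑ j, algebraMap K L (lam i j) * z (Sum.inl j)

/-- The points of `S` are projected to the points `y ∈ Y` of the plane. -/
def PlaneImage {K : Type} [Field K] (lam : Fin 3 → Fin (n + 1) → K)
    (S : Finset (Fin (n + 1) ⊕ W → K)) (Y : Finset (Fin 3 → K)) : Prop :=
  (∀ y ∈ Y, y ≠ 0) ∧ ∀ p ∈ S, ∃ y ∈ Y, ∃ t : K, t ≠ 0 ∧ ∀ i, toPlane lam p i = t * y i

/-- The inequality `K_X · C ≤ A (2 g - 2)` for the curves `C` on the blow-up `X` of `M = {G = 0}` at the
points of `S` which are contained neither in the exceptional divisor nor in the inverse image of the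
curve `ψ = 0` in the plane: for the lifts to `X` of all nonconstant maps to `M` from smooth projective
curves, with function field `L` and genus `g`, whose images are not contained in this inverse image. -/
def BlowupGenusBoundOff {K : Type} [Field K] [IsAlgClosed K] [CharZero K] [Fintype W] (e : W → ℕ)
    (G : ι → MvPolynomial (Fin (n + 1) ⊕ W) K) (S : Finset (Fin (n + 1) ⊕ W → K)) (w : ℕ)
    (lam : Fin 3 → Fin (n + 1) → K) (ψ : MvPolynomial (Fin 3) K) (A : ℚ) : Prop :=
  ∀ (L : Type) [Field L] [Algebra K L] [IsFF K L] (z : Fin (n + 1) ⊕ W → L) (c : Fin (n + 1)),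
    z (Sum.inl c) = 1 → (∀ i, aeval z (G i) = 0) → (∃ v, z v ∉ Set.range (algebraMap K L)) →
    aeval (toPlane lam z) ψ ≠ 0 →
    ∀ u : Fin (w + 1) → Fin (n + 1) ⊕ W → L, TangentBasis G z u →
      canBl K e S z u ≤ A * canDeg K L

/-- All coordinates are integral over the three linear forms of the linear projection `lam`: it is a
finite morphism from `M = {G = 0}` to the plane. -/
def FinitePlane {K : Type} [Field K] (lam : Fin 3 → Fin (n + 1) → K)
    (G : ι → MvPolynomial (Fin (n + 1) ⊕ W) K) : Prop :=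
  ∀ v : Fin (n + 1) ⊕ W, ∃ p : Polynomial (MvPolynomial (Fin 3) K), p.Monic ∧
    p.eval₂ (aeval fun i => ∑ j, C (lam i j) * X (Sum.inl j) : MvPolynomial (Fin 3) K →ₐ[K]
      MvPolynomial (Fin (n + 1) ⊕ W) K).toRingHom (X v) ∈ Ideal.span (Set.range G)

/-- For each `ε > 0` there is a constant `B` with `K_X · C ≤ (α + ε) (2 g - 2) + B` for all curves `C` on
the blow-up `X` of `M = {G = 0}` at the points of `S` which are not contained in the exceptional
divisor; `g` is the geometric genus of `C`. Such a curve is the lift to `X` of a curve on `M`, given by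
coordinates `z` which generate its function field `L`. -/
def CurveInequality {K : Type} [Field K] [IsAlgClosed K] [CharZero K] [Fintype W] (e : W → ℕ)
    (G : ι → MvPolynomial (Fin (n + 1) ⊕ W) K) (S : Finset (Fin (n + 1) ⊕ W → K)) (w : ℕ)
    (α : ℚ) : Prop :=
  ∀ ε : ℚ, 0 < ε → ∃ B : ℚ, ∀ (L : Type) [Field L] [Algebra K L] [IsFF K L]
    (z : Fin (n + 1) ⊕ W → L) (c : Fin (n + 1)), z (Sum.inl c) = 1 → (∀ i, aeval z (G i) = 0) →
    (∃ v, z v ∉ Set.range (algebraMap K L)) → IntermediateField.adjoin K (Set.range z) = ⊤ →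
    ∀ u : Fin (w + 1) → Fin (n + 1) ⊕ W → L, TangentBasis G z u →
      canBl K e S z u ≤ (α + ε) * canDeg K L + B

end Pool.Agent.U492.VB
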