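import Pool.Agent.U492.VB.Any
import Pool.Agent.W603.PV.Ext

/-!
Bounded degrees of the curves over a plane curve.
-/

set_option autoImplicit false

open MvPolynomial FF Pool.Agent.W603.LV Pool.Agent.W603.PV

namespace Pool.Agent.U492.VB

open IntermediateField

/-- The degree of a field generated by elements of bounded degrees. -/
theorem finrank_le_prod {F L σ : Type} [Field F] [Field L] [Algebra F L] [Fintype σ] (a : σ → L)
    (g : σ → Polynomial F) (hg : ∀ s, g s ≠ 0) (h : ∀ s, Polynomial.aeval (a s) (g s) = 0)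
    (htop : adjoin F (Set.range a) = ⊤) : Module.finrank F L ≤ ∏ s, (g s).natDegree := by
  classical
  have key : ∀ S : Finset σ, Module.finrank F (adjoin F (a '' S)) ≤ ∏ s ∈ S, (g s).natDegree := by
    intro S
    induction S using Finset.induction_on with
    | empty =>
      rw [Finset.coe_empty, Set.image_empty, adjoin_empty, IntermediateField.finrank_bot]
      simp
    | insert v S hv ih =>
      rw [Finset.coe_insert, Set.image_insert_eq, Set.insert_eq, adjoin_union,
        Finset.prod_insert hv]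
      refine (IntermediateField.finrank_sup_le _ _).trans (Nat.mul_le_mul ?_ ih)
      have h1 : IsIntegral F (a v) := by
        rw [← isAlgebraic_iff_isIntegral]
        exact ⟨g v, hg v, h v⟩
      rw [adjoin.finrank h1]
      exact Polynomial.natDegree_le_of_dvd (minpoly.dvd F (a v) (h v)) (hg v)
  have h1 := key Finset.univ
  rw [Finset.coe_univ, Set.image_univ, htop, IntermediateField.finrank_top'] at h1
  exact h1

/-- The polynomial of a coordinate of a point of a plane curve over the field generated by another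
coordinate. -/
theorem exists_poly {K L : Type} [Field K] [Field L] [Algebra K L] {ψ : MvPolynomial (Fin 3) K}
    {δ : ℕ} (hψ : ψ.IsHomogeneous δ) (hψ0 : ψ ≠ 0) {y : Fin 3 → L} (hy : aeval y ψ = 0)
    {c i j : Fin 3} (hci : c ≠ i) (hcj : c ≠ j) (hij : i ≠ j) (hc : y c = 1)
    (ht : Transcendental K (y i)) :
    ∃ g : Polynomial K⟮y i⟯, g ≠ 0 ∧ g.natDegree ≤ δ ∧ Polynomial.aeval (y j) g = 0 := by
  classical
  obtain ⟨g, hg⟩ : ∃ g : Polynomial K⟮y i⟯, g = ∑ α ∈ ψ.support,
    Polynomial.C (algebraMap K K⟮y i⟯ (ψ.coeff α) * AdjoinSimple.gen K (y i) ^ α i) *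
      Polynomial.X ^ α j := ⟨_, rfl⟩
  have h3 : ∀ f : Fin 3 → ℕ, f 0 + f 1 + f 2 = f c + f i + f j := by
    intro f
    fin_cases c <;> fin_cases i <;> fin_cases j <;> simp at hci hcj hij ⊢ <;> omega
  have hprod : ∀ f : Fin 3 → L, ∏ l, f l = f c * f i * f j := by
    intro f
    rw [Fin.prod_univ_three]
    fin_cases c <;> fin_cases i <;> fin_cases j <;>
      first
      | exact absurd rfl hci
      | exact absurd rfl hcj
      | exact absurd rfl hij
      | (simp only [Fin.zero_eta, Fin.mk_one, Fin.reduceFinMk] <;> ring)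
  have hdeg : ∀ α ∈ ψ.support, α c + α i + α j = δ := by
    intro α hα
    have h1 := hψ (mem_support_iff.1 hα)
    rw [Finsupp.weight_apply, Finsupp.sum_fintype _ _ (by simp), Fin.sum_univ_three] at h1
    rw [← h3]
    simpa using h1
  refine ⟨g, ?_, ?_, ?_⟩
  · intro h0
    obtain ⟨α0, hα0⟩ := Finset.nonempty_iff_ne_empty.2 (fun h => hψ0 (support_eq_empty.1 h))
    have h1 := congrArg (fun f => Polynomial.coeff f (α0 j)) h0
    rw [hg] at h1
    simp only [Polynomial.finsetSum_coeff, Polynomial.coeff_C_mul, Polynomial.coeff_X_pow,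
      Polynomial.coeff_zero] at h1
    obtain ⟨h, hh⟩ : ∃ h : Polynomial K, h = ∑ α ∈ ψ.support,
      Polynomial.C (ψ.coeff α * if α0 j = α j then 1 else 0) * Polynomial.X ^ α i := ⟨_, rfl⟩
    have h2 : Polynomial.aeval (y i) h = 0 := by
      have h4 := congrArg (algebraMap K⟮y i⟯ L) h1
      rw [map_zero, map_sum] at h4
      rw [hh, map_sum, ← h4]
      refine Finset.sum_congr rfl fun α _ => ?_
      rw [map_mul, map_pow, Polynomial.aeval_C, Polynomial.aeval_X, map_mul, map_mul, map_mul,
        map_pow, AdjoinSimple.algebraMap_gen, ← IsScalarTower.algebraMap_apply]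
      split_ifs <;> simp
    have h5 : h = 0 := by
      by_contra hcon
      exact ht ⟨h, hcon, h2⟩
    have h6 := congrArg (fun f => Polynomial.coeff f (α0 i)) h5
    rw [hh] at h6
    simp only [Polynomial.finsetSum_coeff, Polynomial.coeff_C_mul, Polynomial.coeff_X_pow,
      Polynomial.coeff_zero] at h6
    rw [Finset.sum_eq_single α0] at h6
    · simp only [if_true, mul_one] at h6
      exact mem_support_iff.1 hα0 h6
    · intro α hα hne
      by_cases h7 : α0 j = α j
      · by_cases h8 : α0 i = α i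
        · exfalso
          apply hne
          have h9 := hdeg α hα
          have h10 := hdeg α0 hα0
          ext l
          have h11 : l = c ∨ l = i ∨ l = j := by
            fin_cases l <;> fin_cases c <;> fin_cases i <;> fin_cases j <;>
              simp at hci hcj hij ⊢
          rcases h11 with rfl | rfl | rfl
          · omega
          · exact h8.symm
          · exact h7.symm
        · rw [if_neg h8, mul_zero]
      · rw [if_neg h7, mul_zero, zero_mul]
    · intro h7
      exact absurd hα0 h7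
  · rw [hg]
    refine Polynomial.natDegree_sum_le_of_forall_le _ _ fun α hα => ?_
    refine (Polynomial.natDegree_C_mul_X_pow_le _ _).trans ?_
    have := hdeg α hα
    omega
  · rw [hg, map_sum, ← hy, aeval_def, eval₂_eq']
    refine Finset.sum_congr rfl fun α _ => ?_
    rw [hprod, map_mul, map_pow, Polynomial.aeval_C, Polynomial.aeval_X, map_mul, map_pow,
      AdjoinSimple.algebraMap_gen, ← IsScalarTower.algebraMap_apply, hc, one_pow]
    ring

open Pool.Agent.N126.RC

variable {n : ℕ} {W ι : Type}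

/-- The equation of a coordinate over the coordinates of the plane. -/
theorem plane_point {K L : Type} [Field K] [Field L] [Algebra K L]
    {G : ι → MvPolynomial (Fin (n + 1) ⊕ W) K} (lam : Fin 3 → Fin (n + 1) → K)
    (p : Polynomial (MvPolynomial (Fin 3) K)) {v : Fin (n + 1) ⊕ W}
    (hp : p.eval₂ (aeval fun i => ∑ j, C (lam i j) * X (Sum.inl j) : MvPolynomial (Fin 3) K →ₐ[K]
      MvPolynomial (Fin (n + 1) ⊕ W) K).toRingHom (X v) ∈ Ideal.span (Set.range G))
    {z : Fin (n + 1) ⊕ W → L} (hz : ∀ i, aeval z (G i) = 0) :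
    (p.map (aeval (toPlane lam z) : MvPolynomial (Fin 3) K →ₐ[K] L).toRingHom).eval (z v) = 0 := by
  have h1 := eval_span hz hp
  have h2 := Polynomial.hom_eval₂ p (aeval fun i => ∑ j, C (lam i j) * X (Sum.inl j) :
    MvPolynomial (Fin 3) K →ₐ[K] MvPolynomial (Fin (n + 1) ⊕ W) K).toRingHom
      (aeval z : MvPolynomial (Fin (n + 1) ⊕ W) K →ₐ[K] L).toRingHom (X v)
  rw [Polynomial.eval_map]
  have h3 : (aeval z : MvPolynomial (Fin (n + 1) ⊕ W) K →ₐ[K] L).toRingHom.comp
      (aeval fun i => ∑ j, C (lam i j) * X (Sum.inl j) : MvPolynomial (Fin 3) K →ₐ[K]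
        MvPolynomial (Fin (n + 1) ⊕ W) K).toRingHom =
      (aeval (toPlane lam z) : MvPolynomial (Fin 3) K →ₐ[K] L).toRingHom := by
    apply MvPolynomial.ringHom_ext
    · intro r
      simp
    · intro i
      simp [toPlane]
  have h4 : (aeval z : MvPolynomial (Fin (n + 1) ⊕ W) K →ₐ[K] L).toRingHom (X v) = z v := by simp
  rw [h3, h4] at h2
  rw [← h2]
  exact h1

/-- Scaling of a point. -/
theorem scale_point {K L : Type} [Field K] [Field L] [Algebra K L] {e : W → ℕ}
    {G : ι → MvPolynomial (Fin (n + 1) ⊕ W) K}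
    (hGh : ∀ i, ∃ c, (G i).IsWeightedHomogeneous (wts e) c)
    {z z' : Fin (n + 1) ⊕ W → L} {t : L} (hz' : ∀ s, z' s = t ^ wts e s * z s)
    (hz : ∀ i, aeval z (G i) = 0) (i : ι) : aeval z' (G i) = 0 := by
  obtain ⟨c, hc⟩ := hGh i
  have h1 := Pool.Agent.N617.RC.eval_scale (algebraMap K L) (wts e) c (G i) hc t z' z hz'
  have h2 : aeval z (G i) = eval₂ (algebraMap K L) z (G i) := rfl
  rw [← h2, hz i, mul_zero] at h1
  exact h1

theorem toPlane_scale {K L : Type} [Field K] [Field L] [Algebra K L] {e : W → ℕ}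
    (lam : Fin 3 → Fin (n + 1) → K) {z z' : Fin (n + 1) ⊕ W → L} {t : L}
    (hz' : ∀ s, z' s = t ^ wts e s * z s) (i : Fin 3) : toPlane lam z' i = t * toPlane lam z i := by
  unfold toPlane
  rw [Finset.mul_sum]
  refine Finset.sum_congr rfl fun j _ => ?_
  have := hz' (Sum.inl j)
  simp only [wts, Sum.elim_inl, pow_one] at this
  rw [this]
  ring

/-- The least order of the coordinates is the least order of the coordinates of the plane. -/
theorem ge_plane {K L : Type} [Field K] [Field L] [Algebra K L] {e : W → ℕ}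
    {G : ι → MvPolynomial (Fin (n + 1) ⊕ W) K}
    (hGh : ∀ i, ∃ c, (G i).IsWeightedHomogeneous (wts e) c) {lam : Fin 3 → Fin (n + 1) → K}
    (hfp : FinitePlane lam G) (z : Fin (n + 1) ⊕ W → L) (hz : ∀ i, aeval z (G i) = 0)
    (hY : toPlane lam z ≠ 0) (P : Place K L) (s : Fin (n + 1) ⊕ W) :
    Ge P (wts e s * pord P (toPlane lam z)) (z s) := by
  classical
  obtain ⟨j0, hj0, hj0'⟩ := exists_pord P (Function.ne_iff.1 hY)
  obtain ⟨t, ht⟩ : ∃ t, t = toPlane lam z j0 := ⟨_, rfl⟩
  have ht0 : t ≠ 0 := by rw [ht]; exact hj0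
  have hto : P.ord t = pord P (toPlane lam z) := by rw [ht]; exact hj0'
  obtain ⟨z', hz'⟩ : ∃ z' : Fin (n + 1) ⊕ W → L, ∀ s, z' s = t⁻¹ ^ wts e s * z s := ⟨_, fun _ => rfl⟩
  have hzz : ∀ s, z s = t ^ wts e s * z' s := by
    intro s
    rw [hz', ← mul_assoc, ← mul_pow, mul_inv_cancel₀ ht0, one_pow, one_mul]
  have hz0 := scale_point hGh hz' hz
  have hY' : ∀ i, Ge P 0 (toPlane lam z' i) := by
    intro i
    refine Ge.of_mul' (h := t) (m := P.ord t) ht0 rfl ?_
    rw [← toPlane_scale lam hzz i, zero_add, hto]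
    exact ge_pord P (toPlane lam z) i
  obtain ⟨p, hp, hpG⟩ := hfp s
  have h1 := plane_point lam p hpG hz0
  rw [Polynomial.eval_eq_sum_range, hp.natDegree_map, Finset.sum_range_succ,
    Polynomial.coeff_map, hp.coeff_natDegree, map_one, one_mul] at h1
  have hall : Ge P 0 (z' s) := by
    refine Pool.Agent.N617.RC.int_of_monic P p.natDegree (fun i => aeval (toPlane lam z')
      (p.coeff i)) (fun i _ => ?_) _ ?_
    · exact (ge_close P le_rfl hY' (fun _ => Ge.zero) (p.coeff i) (b := fun _ => 0)).1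
    · rw [← h1, add_comm]
      congr 1
      refine Finset.sum_congr rfl fun i _ => ?_
      rw [Polynomial.coeff_map]
      rfl
  have h1 : Ge P (P.ord t) t := Or.inr le_rfl
  have h2 := (h1.pow (wts e s)).mul hall
  rw [← hzz, add_zero, hto] at h2
  exact h2

/-- The degree of a point is at most the sum of the degrees of the coordinates. -/
theorem pht_le_sum {K L : Type} [Field K] [Field L] [Algebra K L] [CharZero K] [IsFF K L]
    {y : Fin 3 → L} {c : Fin 3} (hc : y c = 1) : pht K y ≤ ∑ i, hgt K (y i) := by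
  classical
  have hyc0 : y c ≠ 0 := by rw [hc]; exact one_ne_zero
  obtain ⟨T, hT⟩ := exists_supp (k := K) (Finset.univ : Finset (Fin 3)) y
  have h1 : pht K y = - ∑ P ∈ T, pord P y := by
    unfold pht
    rw [finsum_eq_sum_of_support_subset]
    intro P hP
    by_contra hcon
    apply hP
    obtain ⟨j, hj, hjo⟩ := exists_pord P (f := y) ⟨c, hyc0⟩
    change pord P y = 0
    rw [← hjo]
    by_contra h
    exact hcon (hT j (Finset.mem_univ _) P h)
  have h2 : ∀ i, hgt K (y i) = ∑ P ∈ T, max (-P.ord (y i)) 0 := fun i =>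
    hgt_finset (y i) T (fun P hP => hT i (Finset.mem_univ _) P hP)
  rw [h1, Finset.sum_congr rfl fun i _ => h2 i, Finset.sum_comm, ← Finset.sum_neg_distrib]
  refine Finset.sum_le_sum fun P _ => ?_
  obtain ⟨j, hj, hjo⟩ := exists_pord P (f := y) ⟨c, hyc0⟩
  rw [← hjo]
  exact (le_max_left _ _).trans
    (Finset.single_le_sum (f := fun i => max (-P.ord (y i)) 0) (fun i _ => le_max_right _ _)
      (Finset.mem_univ j))

end Pool.Agent.U492.VB
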