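import Pool.Agent.U492.VB.Bound

/-!
Canonical degrees and genera of the curves on the blow-ups at arbitrary points of surfaces ramified
over generic hypersurface sections.
-/

set_option autoImplicit false

open MvPolynomial FF Pool.Agent.W603.LV Pool.Agent.W603.PV
open Pool.Agent.TH145.MG (DimLE)

namespace Pool.Agent.U492.VB

open Pool.Agent.N126.RC

variable {k K : Type} [Field k] [Field K] [IsAlgClosed K] [CharZero K] [Algebra k K]
  {n m : ℕ} {A : Type} [Fintype A] [DecidableEq A] {d q : A → ℕ} {W ι : Type}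

/-- The inequality for all curves. -/
theorem curve_inequality (V : Set (MvPolynomial (Fin (n + 1)) (algebraicClosure k K)))
    (hVh : ∀ f ∈ V, ∃ e, f.IsHomogeneous e) (hV : DimLE (algebraicClosure k K) V m)
    (F : A → MvPolynomial (Fin (n + 1)) K) (hF : Generic k d F) (C : Finset A)
    (hq : ∀ a, a ∉ C → q a ≠ 0)
    (hd : (2 * m : ℚ) < ∑ a ∈ C, ((d a : ℚ) + 1) + ∑ a ∈ Cᶜ, (d a : ℚ) * (1 - 1 / q a))
    [Fintype W] (e : W → ℕ) (G : ι → MvPolynomial (Fin (n + 1) ⊕ W) K)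
    (hGh : ∀ i, ∃ c, (G i).IsWeightedHomogeneous (wts e) c) (hfo : FiniteOver G)
    (hov : Over V F C G) (hram : ∀ a, a ∉ C → RamifiedOver G (F a) (q a))
    (κ : ℚ) (hκ0 : 0 ≤ κ) (hκ : CanonicalBound e G 2 κ) {S : Finset (Fin (n + 1) ⊕ W → K)}
    (hS : PointSet e G S) (lam : Fin 3 → Fin (n + 1) → K) (hfp : FinitePlane lam G)
    (Y : Finset (Fin 3 → K))
    (hY : PlaneImage lam S Y) (α : ℚ)
    (hα : κ ≤ α *
      (∑ a ∈ C, ((d a : ℚ) + 1) + ∑ a ∈ Cᶜ, (d a : ℚ) * (1 - 1 / q a) - 2 * m))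
    (hs : (Y.card : ℚ) ≤ (α *
      (∑ a ∈ C, ((d a : ℚ) + 1) + ∑ a ∈ Cᶜ, (d a : ℚ) * (1 - 1 / q a) - 2 * m) - κ) ^ 2) :
    CurveInequality e G S 2 α := by
  intro ε hε
  obtain ⟨η, hη⟩ : ∃ η, η = ∑ a ∈ C, ((d a : ℚ) + 1) + ∑ a ∈ Cᶜ, (d a : ℚ) * (1 - 1 / q a) -
    2 * m := ⟨_, rfl⟩
  have hη0 : 0 < η := by rw [hη]; linarith
  have hεη : 0 < ε * η := mul_pos hε hη0
  have hα' : κ ≤ (α + ε) * η := by rw [← hη] at hα; linarith
  have hs' : (Y.card : ℚ) < ((α + ε) * η - κ) ^ 2 := by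
    rw [← hη] at hs hα
    refine hs.trans_lt ?_
    have h1 : 0 ≤ α * η - κ := by linarith
    have h2 : α * η - κ < (α + ε) * η - κ := by linarith
    exact pow_lt_pow_left₀ h2 h1 two_ne_zero
  obtain ⟨ψ, δ, hψ0, hψh, hoff⟩ := blowup_genus_any V hVh hV F hF C hq hd e G hGh hfo hov hram κ
    hκ0 hκ hS lam Y hY (α + ε) (by rw [← hη]; exact hα') (by rw [← hη]; exact hs')
  choose p hpm hpG using hfp
  obtain ⟨N, hN⟩ : ∃ N : ℤ, N = 3 * (δ * ∏ v, ((p v).natDegree : ℤ)) := ⟨_, rfl⟩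
  have hN0 : (0 : ℚ) ≤ N := by
    have : 0 ≤ N := by rw [hN]; positivity
    exact_mod_cast this
  refine ⟨(κ + S.card) * N, ?_⟩
  intro L _ _ _ z c hz1 hz hnc htop u hu
  have hB : (0 : ℚ) ≤ (κ + S.card) * N := by positivity
  by_cases hψz : aeval (toPlane lam z) ψ = 0
  · have h1 := curve_proj V hVh hV F hF C hq e G hGh hfo hov hram L z c hz1 hz hnc
    rw [← hη] at h1
    have h2 := hκ L z c hz1 hz hnc u hu
    have h3 := excDeg_le_height (δ := S.card) hGh hfo z hz hz1 hnc hS (Or.inl le_rfl)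
    have h4 : (excDeg K e S z : ℚ) ≤ S.card * pht K fun j => z (Sum.inl j) := by exact_mod_cast h3
    have h5 : (canBl K e S z u : ℚ) = canX K e z u + excDeg K e S z := by
      unfold canBl
      push_cast
      ring
    have h6 : (0 : ℚ) ≤ pht K fun j => z (Sum.inl j) := by
      exact_mod_cast pht_nonneg' (K := K) (c := c) hz1
    have h7 := pht_bound hGh p hpm hpG z hz hz1 hnc htop hψh hψ0 hψz
    rw [← hN] at h7
    have h8 : (pht K (fun j => z (Sum.inl j)) : ℚ) ≤ N := by exact_mod_cast h7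
    have hα0 : 0 ≤ α + ε := by
      by_contra hcon
      push Not at hcon
      have := mul_neg_of_neg_of_pos hcon hη0
      linarith
    have h9 : 0 ≤ (α + ε) * canDeg K L :=
      mul_nonneg hα0 ((mul_nonneg hη0.le h6).trans h1)
    have h10 : (κ + S.card) * (pht K (fun j => z (Sum.inl j)) : ℚ) ≤ (κ + S.card) * N :=
      mul_le_mul_of_nonneg_left h8 (by positivity)
    rw [h5]
    linarith
  · have h1 := hoff L z c hz1 hz hnc hψz u hu
    linarith

end Pool.Agent.U492.VB
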